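import Pool.Agent.LD90.Defs
import Pool.Agent.BF80.MdlK
import Pool.Agent.BF80.Henkin
import Pool.Agent.BF80.Axioms
import Pool.Agent.BF80.Final
import Mathlib

/-!
# Decidability of systems of equations from the independence of the model

For every system a closed formula is written down which states that the system has a solution; its code is a primitive
recursive function of the system.
-/

set_option maxSynthPendingDepth 10

open Polynomial

namespace LD90

open FT80 BF80

namespace Wr

/-! ### The formula of a system -/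

/-- the product of the variables in the list `l` is the value of the variable `4 * l.length` -/
def PF : List ℕ → FR
  | [] => .one 0
  | v :: l => .ex (4 * l.length) (.and (PF l) (.mul v (4 * l.length) (4 * l.length + 4)))

/-- the variables of a monomial: `t` is the variable `1`, `x_i` is the variable `2 * i + 3` -/
def ML (m : ℕ × List ℕ) : List ℕ := List.replicate m.1 1 ++ m.2.map (fun i => 2 * i + 3)

/-- the value of the polynomial is the value of the variable `4 * f.length + 2` -/
def SF : PL → FR
  | [] => .zero 2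
  | m :: f => .ex (4 * f.length + 2) (.ex (4 * (ML m).length) (.and (.and (SF f) (PF (ML m)))
      (.add (4 * f.length + 2) (4 * (ML m).length) (4 * f.length + 6))))

/-- the value of the polynomial is zero -/
def ZF (f : PL) : FR := .ex (4 * f.length + 2) (.and (SF f) (.zero (4 * f.length + 2)))

/-- the values of the polynomials are zero -/
def CF : List PL → FR
  | [] => .eq 0 0
  | f :: fs => .and (ZF f) (CF fs)

/-- the system with free variables -/
def SysF (a : List PL × PL) : FR := .and (.tt 1) (.and (CF a.1) (.neg (ZF a.2)))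

section sem

variable {R : Type} [CommRing R] (t : R)

theorem sat_PF (l : List ℕ) : ∀ e : ℕ → R, (∀ v ∈ l, ¬ 4 ∣ v) →
    (Sat (ringRS t) e (PF l) ↔ e (4 * l.length) = (l.map e).prod) := by
  induction l with
  | nil =>
    intro e _
    simp [PF, Sat, ringRS]
  | cons v l ih =>
    intro e hv
    have hv0 : v ≠ 4 * l.length := fun h => hv v List.mem_cons_self ⟨l.length, h⟩
    have hm : ∀ a : R, l.map (Function.update e (4 * l.length) a) = l.map e := by
      intro a
      apply List.map_congr_left
      intro w hw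
      rw [Function.update_of_ne]
      rintro rfl
      exact hv _ (List.mem_cons_of_mem _ hw) ⟨l.length, rfl⟩
    simp only [PF, Sat, ringRS]
    have h1 : ∀ a : R, Sat (ringRS t) (Function.update e (4 * l.length) a) (PF l) ↔ a = (l.map e).prod := by
      intro a
      rw [ih _ fun w hw => hv w (List.mem_cons_of_mem _ hw), hm, Function.update_self]
    constructor
    · rintro ⟨a, h2, h3⟩
      have h2' := (h1 a).1 h2
      rw [Function.update_of_ne hv0, Function.update_self, Function.update_of_ne (by omega)] at h3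
      rw [List.length_cons, show 4 * (l.length + 1) = 4 * l.length + 4 by ring, List.map_cons, List.prod_cons, ← h2', h3]
    · intro h2
      refine ⟨(l.map e).prod, (h1 _).2 rfl, ?_⟩
      rw [Function.update_of_ne hv0, Function.update_self, Function.update_of_ne (by omega)]
      rw [List.length_cons, show 4 * (l.length + 1) = 4 * l.length + 4 by ring, List.map_cons, List.prod_cons] at h2
      exact h2.symm

theorem ML_odd (m : ℕ × List ℕ) : ∀ v ∈ ML m, v % 2 = 1 := by
  intro v hv
  rw [ML, List.mem_append, List.mem_replicate, List.mem_map] at hv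
  rcases hv with ⟨-, rfl⟩ | ⟨i, -, rfl⟩ <;> omega

theorem prod_ML (m : ℕ × List ℕ) (e : ℕ → R) :
    ((ML m).map e).prod = e 1 ^ m.1 * (m.2.map fun i => e (2 * i + 3)).prod := by
  rw [ML, List.map_append, List.prod_append, List.map_replicate, List.prod_replicate, List.map_map]
  rfl

theorem sat_SF (f : PL) : ∀ e : ℕ → R,
    (Sat (ringRS t) e (SF f) ↔ e (4 * f.length + 2) = ev (e 1) (fun i => e (2 * i + 3)) f) := by
  induction f with
  | nil =>
    intro e
    simp [SF, Sat, ringRS, ev]
  | cons m f ih =>
    intro e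
    have hev : ev (e 1) (fun i => e (2 * i + 3)) (m :: f) =
        e 1 ^ m.1 * (m.2.map fun i => e (2 * i + 3)).prod + ev (e 1) (fun i => e (2 * i + 3)) f := by
      simp [ev]
    set A : ℕ := 4 * f.length + 2 with hA
    set B : ℕ := 4 * (ML m).length with hB
    have hAB : A ≠ B := by omega
    have hodd : ∀ (a b : R) (v : ℕ), v % 2 = 1 → Function.update (Function.update e A a) B b v = e v := by
      intro a b v hv
      rw [Function.update_of_ne (by omega), Function.update_of_ne (by omega)]
    have h1 : ∀ a b : R, Sat (ringRS t) (Function.update (Function.update e A a) B b) (SF f) ↔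
        a = ev (e 1) (fun i => e (2 * i + 3)) f := by
      intro a b
      rw [ih]
      rw [Function.update_of_ne hAB, Function.update_self, hodd a b 1 (by norm_num)]
      have h2 : (fun i => Function.update (Function.update e A a) B b (2 * i + 3)) = fun i => e (2 * i + 3) := by
        funext i
        exact hodd a b _ (by omega)
      rw [h2]
    have h2 : ∀ a b : R, Sat (ringRS t) (Function.update (Function.update e A a) B b) (PF (ML m)) ↔
        b = e 1 ^ m.1 * (m.2.map fun i => e (2 * i + 3)).prod := by
      intro a b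
      rw [sat_PF t (ML m) _ (fun v hv => by have := ML_odd m v hv; omega), ← hB, Function.update_self]
      have h3 : (ML m).map (Function.update (Function.update e A a) B b) = (ML m).map e := by
        apply List.map_congr_left
        intro v hv
        exact hodd a b v (ML_odd m v hv)
      rw [h3, prod_ML]
    have h3 : ∀ a b : R, Function.update (Function.update e A a) B b A = a := by
      intro a b
      rw [Function.update_of_ne hAB, Function.update_self]
    have h4 : ∀ a b : R, Function.update (Function.update e A a) B b (4 * f.length + 6) = e (4 * f.length + 6) := by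
      intro a b
      rw [Function.update_of_ne (by omega), Function.update_of_ne (by omega)]
    rw [hev, List.length_cons, show 4 * (f.length + 1) + 2 = 4 * f.length + 6 by ring]
    simp only [SF, Sat, ← hA, ← hB]
    constructor
    · rintro ⟨a, b, ⟨h5, h6⟩, h7⟩
      have h7' : Function.update (Function.update e A a) B b A + Function.update (Function.update e A a) B b B =
        Function.update (Function.update e A a) B b (4 * f.length + 6) := h7
      rw [h3, h4, Function.update_self] at h7'
      rw [← h7', (h1 a b).1 h5, (h2 a b).1 h6, add_comm]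
    · intro h5
      refine ⟨_, _, ⟨(h1 _ _).2 rfl, (h2 _ _).2 rfl⟩, ?_⟩
      show Function.update (Function.update e A _) B _ A + Function.update (Function.update e A _) B _ B =
        Function.update (Function.update e A _) B _ (4 * f.length + 6)
      rw [h3, h4, Function.update_self, h5, add_comm]

theorem sat_ZF (f : PL) (e : ℕ → R) :
    Sat (ringRS t) e (ZF f) ↔ ev (e 1) (fun i => e (2 * i + 3)) f = 0 := by
  have h1 : ∀ a : R, Sat (ringRS t) (Function.update e (4 * f.length + 2) a) (SF f) ↔
      a = ev (e 1) (fun i => e (2 * i + 3)) f := by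
    intro a
    rw [sat_SF, Function.update_self, Function.update_of_ne (by omega)]
    have h2 : (fun i => Function.update e (4 * f.length + 2) a (2 * i + 3)) = fun i => e (2 * i + 3) := by
      funext i
      exact Function.update_of_ne (by omega) _ _
    rw [h2]
  simp only [ZF, Sat]
  constructor
  · rintro ⟨a, h2, h3⟩
    have h3' : Function.update e (4 * f.length + 2) a (4 * f.length + 2) = 0 := h3
    rw [Function.update_self] at h3'
    rw [← (h1 a).1 h2, h3']
  · intro h2
    refine ⟨0, (h1 0).2 h2.symm, ?_⟩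
    show Function.update e (4 * f.length + 2) 0 (4 * f.length + 2) = 0
    rw [Function.update_self]

theorem sat_CF (fs : List PL) (e : ℕ → R) :
    Sat (ringRS t) e (CF fs) ↔ ∀ f ∈ fs, ev (e 1) (fun i => e (2 * i + 3)) f = 0 := by
  induction fs with
  | nil => simp [CF, Sat]
  | cons f fs ih => simp only [CF, Sat, ih, sat_ZF, List.mem_cons, forall_eq_or_imp]

theorem sat_SysF (a : List PL × PL) (e : ℕ → R) : Sat (ringRS t) e (SysF a) ↔
    e 1 = t ∧ (∀ f ∈ a.1, ev (e 1) (fun i => e (2 * i + 3)) f = 0) ∧ ev (e 1) (fun i => e (2 * i + 3)) a.2 ≠ 0 := by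
  simp only [SysF, Sat, sat_CF, sat_ZF]
  rfl

theorem exists_sat (a : List PL × PL) : (∃ e, Sat (ringRS t) e (SysF a)) ↔ Sol t a := by
  constructor
  · rintro ⟨e, he⟩
    rw [sat_SysF] at he
    obtain ⟨h1, h2, h3⟩ := he
    rw [h1] at h2 h3
    exact ⟨_, h2, h3⟩
  · rintro ⟨x, h1, h2⟩
    refine ⟨fun v => if v = 1 then t else x ((v - 3) / 2), ?_⟩
    rw [sat_SysF]
    have h3 : (fun i => (fun v => if v = 1 then t else x ((v - 3) / 2)) (2 * i + 3)) = x := by
      funext i
      have h4 : 2 * i + 3 ≠ 1 := by omega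
      have h5 : (2 * i + 3 - 3) / 2 = i := by omega
      simp only [h4, if_false, h5]
    rw [h3]
    simp only [if_true]
    exact ⟨trivial, h1, h2⟩

end sem

/-! ### The existential closure -/

/-- `∃ x_(N-1) … ∃ x_0` -/
def exc (φ : FR) : ℕ → FR
  | 0 => φ
  | N + 1 => .ex N (exc φ N)

theorem sat_exc {α : Type} (R : RS α) (φ : FR) (N : ℕ) : ∀ e : ℕ → α,
    Sat R e (exc φ N) ↔ ∃ e' : ℕ → α, (∀ i, N ≤ i → e' i = e i) ∧ Sat R e' φ := by
  induction N with
  | zero =>
    intro e
    constructor
    · intro h
      exact ⟨e, fun _ _ => rfl, h⟩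
    · rintro ⟨e', h1, h2⟩
      rw [show e' = e from funext fun i => h1 i (Nat.zero_le i)] at h2
      exact h2
  | succ N ih =>
    intro e
    simp only [exc, Sat, ih]
    constructor
    · rintro ⟨a, e', h1, h2⟩
      refine ⟨e', fun i hi => ?_, h2⟩
      rw [h1 i (by omega), Function.update_of_ne (by omega)]
    · rintro ⟨e', h1, h2⟩
      refine ⟨e' N, e', fun i hi => ?_, h2⟩
      by_cases h : i = N
      · subst h
        rw [Function.update_self]
      · rw [Function.update_of_ne h, h1 i (by omega)]

theorem sat_exc_code {α : Type} (R : RS α) (φ : FR) (e : ℕ → α) :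
    Sat R e (exc φ (φ.code + 1)) ↔ ∃ e' : ℕ → α, Sat R e' φ := by
  rw [sat_exc]
  constructor
  · rintro ⟨e', -, h⟩
    exact ⟨e', h⟩
  · rintro ⟨e', h⟩
    refine ⟨fun i => if i < φ.code + 1 then e' i else e i, fun i hi => if_neg (by omega), ?_⟩
    rw [Asm.sat_dep_code R φ _ e' (fun i hi => if_pos hi)]
    exact h

/-- the closure on codes -/
def kExc (c N : ℕ) : ℕ := Nat.rec c (fun n d => Nat.pair 8 (Nat.pair n d)) N

theorem code_exc (φ : FR) (N : ℕ) : (exc φ N).code = kExc φ.code N := by
  induction N with
  | zero => rfl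
  | succ N ih =>
    simp only [exc, FR.code, ih]
    rfl

theorem primrec_kExc : Primrec₂ kExc := by
  have hn : Primrec (fun x : ℕ × ℕ × ℕ => x.2.1) := Primrec.fst.comp Primrec.snd
  have hd : Primrec (fun x : ℕ × ℕ × ℕ => x.2.2) := Primrec.snd.comp Primrec.snd
  have h : Primrec₂ (fun (_ : ℕ) (x : ℕ × ℕ) => Nat.pair 8 (Nat.pair x.1 x.2)) :=
    Ax.p_pair (Primrec.const 8) (Ax.p_pair hn hd)
  exact Primrec.nat_rec Primrec.id h

/-! ### The codes are primitive recursive -/

section prim

open Primrec

theorem p4 {α : Type*} [Primcodable α] {f : α → ℕ} (hf : Primrec f) (c : ℕ) : Primrec (fun x => 4 * f x + c) :=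
  Primrec.nat_add.comp (Primrec.nat_mul.comp (Primrec.const 4) hf) (Primrec.const c)

theorem primrec_PF : Primrec (fun l : List ℕ => (PF l).code) := by
  have hv : Primrec (fun x : List ℕ × (ℕ × List ℕ × ℕ) => x.2.1) := Primrec.fst.comp Primrec.snd
  have hl : Primrec (fun x : List ℕ × (ℕ × List ℕ × ℕ) => x.2.2.1) := Primrec.fst.comp (Primrec.snd.comp Primrec.snd)
  have hi : Primrec (fun x : List ℕ × (ℕ × List ℕ × ℕ) => x.2.2.2) := Primrec.snd.comp (Primrec.snd.comp Primrec.snd)
  have hn : Primrec (fun x : List ℕ × (ℕ × List ℕ × ℕ) => 4 * x.2.2.1.length) :=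
    p4 (Primrec.list_length.comp hl) 0
  have hn4 : Primrec (fun x : List ℕ × (ℕ × List ℕ × ℕ) => 4 * x.2.2.1.length + 4) :=
    p4 (Primrec.list_length.comp hl) 4
  have h : Primrec₂ (fun (_ : List ℕ) (x : ℕ × List ℕ × ℕ) => Nat.pair 8 (Nat.pair (4 * x.2.1.length)
      (Nat.pair 7 (Nat.pair x.2.2 (Nat.pair 2 (Nat.pair x.1 (Nat.pair (4 * x.2.1.length) (4 * x.2.1.length + 4)))))))) :=
    Ax.p_pair (Primrec.const 8) (Ax.p_pair hn (Ax.p_pair (Primrec.const 7) (Ax.p_pair hi
      (Ax.p_pair (Primrec.const 2) (Ax.p_pair hv (Ax.p_pair hn hn4))))))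
  have h2 := Primrec.list_rec (f := fun l : List ℕ => l) (g := fun _ => Nat.pair 4 0) Primrec.id (Primrec.const _) h
  refine h2.of_eq fun l => ?_
  induction l with
  | nil => rfl
  | cons v l ih =>
    simp only [PF, FR.code, ← ih]

theorem primrec_ML : Primrec ML := by
  have h1 : Primrec (fun m : ℕ × List ℕ => List.replicate m.1 1) := by
    have h2 : Primrec₂ (fun (_ : ℕ × List ℕ) (x : ℕ × List ℕ) => (1 : ℕ) :: x.2) :=
      Primrec.list_cons.comp (Primrec.const 1) (Primrec.snd.comp Primrec.snd)
    have h3 := Primrec.nat_rec' (f := fun m : ℕ × List ℕ => m.1) (g := fun _ => ([] : List ℕ)) Primrec.fst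
      (Primrec.const _) h2
    refine h3.of_eq fun m => ?_
    induction m.1 with
    | zero => rfl
    | succ n ih => rw [List.replicate_succ, ← ih]
  have h4 : Primrec (fun m : ℕ × List ℕ => m.2.map (fun i => 2 * i + 3)) := by
    refine Primrec.list_map Primrec.snd ?_
    exact Primrec.nat_add.comp (Primrec.nat_mul.comp (Primrec.const 2) Primrec.snd) (Primrec.const 3)
  exact Primrec.list_append.comp h1 h4

theorem primrec_SF : Primrec (fun f : PL => (SF f).code) := by
  have hm : Primrec (fun x : PL × ((ℕ × List ℕ) × PL × ℕ) => ML x.2.1) :=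
    primrec_ML.comp (Primrec.fst.comp Primrec.snd)
  have hl : Primrec (fun x : PL × ((ℕ × List ℕ) × PL × ℕ) => x.2.2.1.length) :=
    Primrec.list_length.comp (Primrec.fst.comp (Primrec.snd.comp Primrec.snd))
  have hi : Primrec (fun x : PL × ((ℕ × List ℕ) × PL × ℕ) => x.2.2.2) :=
    Primrec.snd.comp (Primrec.snd.comp Primrec.snd)
  have hA : Primrec (fun x : PL × ((ℕ × List ℕ) × PL × ℕ) => 4 * x.2.2.1.length + 2) := p4 hl 2
  have hA6 : Primrec (fun x : PL × ((ℕ × List ℕ) × PL × ℕ) => 4 * x.2.2.1.length + 6) := p4 hl 6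
  have hB : Primrec (fun x : PL × ((ℕ × List ℕ) × PL × ℕ) => 4 * (ML x.2.1).length) :=
    p4 (Primrec.list_length.comp hm) 0
  have hP : Primrec (fun x : PL × ((ℕ × List ℕ) × PL × ℕ) => (PF (ML x.2.1)).code) := primrec_PF.comp hm
  have h : Primrec₂ (fun (_ : PL) (x : (ℕ × List ℕ) × PL × ℕ) => Nat.pair 8 (Nat.pair (4 * x.2.1.length + 2)
      (Nat.pair 8 (Nat.pair (4 * (ML x.1).length) (Nat.pair 7 (Nat.pair (Nat.pair 7 (Nat.pair x.2.2 (PF (ML x.1)).code))
        (Nat.pair 1 (Nat.pair (4 * x.2.1.length + 2) (Nat.pair (4 * (ML x.1).length) (4 * x.2.1.length + 6)))))))))) :=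
    Ax.p_pair (Primrec.const 8) (Ax.p_pair hA (Ax.p_pair (Primrec.const 8) (Ax.p_pair hB
      (Ax.p_pair (Primrec.const 7) (Ax.p_pair (Ax.p_pair (Primrec.const 7) (Ax.p_pair hi hP))
        (Ax.p_pair (Primrec.const 1) (Ax.p_pair hA (Ax.p_pair hB hA6))))))))
  have h2 := Primrec.list_rec (f := fun l : PL => l) (g := fun _ => Nat.pair 3 2) Primrec.id (Primrec.const _) h
  refine h2.of_eq fun l => ?_
  induction l with
  | nil => rfl
  | cons v l ih =>
    simp only [SF, FR.code, ← ih]

theorem primrec_ZF : Primrec (fun f : PL => (ZF f).code) := by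
  have hA : Primrec (fun f : PL => 4 * f.length + 2) := p4 Primrec.list_length 2
  exact Ax.p_pair (Primrec.const 8) (Ax.p_pair hA (Ax.p_pair (Primrec.const 7) (Ax.p_pair primrec_SF
    (Ax.p_pair (Primrec.const 3) hA))))

theorem primrec_CF : Primrec (fun fs : List PL => (CF fs).code) := by
  have hm : Primrec (fun x : List PL × (PL × List PL × ℕ) => (ZF x.2.1).code) :=
    primrec_ZF.comp (Primrec.fst.comp Primrec.snd)
  have hi : Primrec (fun x : List PL × (PL × List PL × ℕ) => x.2.2.2) :=
    Primrec.snd.comp (Primrec.snd.comp Primrec.snd)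
  have h : Primrec₂ (fun (_ : List PL) (x : PL × List PL × ℕ) => Nat.pair 7 (Nat.pair (ZF x.1).code x.2.2)) :=
    Ax.p_pair (Primrec.const 7) (Ax.p_pair hm hi)
  have h2 := Primrec.list_rec (f := fun l : List PL => l) (g := fun _ => Nat.pair 0 (Nat.pair 0 0)) Primrec.id
    (Primrec.const _) h
  refine h2.of_eq fun l => ?_
  induction l with
  | nil => rfl
  | cons v l ih =>
    simp only [CF, FR.code, ← ih]

theorem primrec_SysF : Primrec (fun a : List PL × PL => (SysF a).code) :=
  Ax.p_pair (Primrec.const 7) (Ax.p_pair (Primrec.const (Nat.pair 5 1)) (Ax.p_pair (Primrec.const 7)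
    (Ax.p_pair (primrec_CF.comp Primrec.fst) (Ax.p_pair (Primrec.const 6) (primrec_ZF.comp Primrec.snd)))))

end prim

/-- the closed formula of a system in the domain -/
noncomputable def TF (dom : List PL × PL → Prop) (a : List PL × PL) : FR :=
  open Classical in if dom a then exc (SysF a) ((SysF a).code + 1) else .eq 0 0

theorem primrec_TF {dom : List PL × PL → Prop} (hdom : PrimrecPred dom) :
    Primrec (fun a => (TF dom a).code) := by
  classical
  have h1 : Primrec (fun a : List PL × PL => kExc (SysF a).code ((SysF a).code + 1)) :=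
    primrec_kExc.comp primrec_SysF (Primrec.succ.comp primrec_SysF)
  have h2 : Primrec (fun a : List PL × PL => if dom a then kExc (SysF a).code ((SysF a).code + 1) else
      Nat.pair 0 (Nat.pair 0 0)) := Primrec.ite hdom h1 (Primrec.const _)
  refine h2.of_eq fun a => ?_
  by_cases h : dom a
  · simp only [TF, h, if_true, code_exc]
  · simp only [TF, h, if_false]
    rfl

end Wr

open Wr in
theorem decide_sol (p : ℕ) [Fact p.Prime] (dom : List PL × PL → Prop) (hdom : PrimrecPred dom)
    (h : ∀ (M : Type) [Field M] (σ : P1 p →+* M), Mdl p σ → ∀ a, dom a →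
      (Sol (σ X) a ↔ Sol (tauK p X) a)) :
    ∃ D : List PL × PL → Bool, Computable D ∧
      ∀ a, dom a → (D a = true ↔ Sol (HahnSeries.single 1 1 : LaurentSeries (ZMod p)) a) := by
  obtain ⟨AL, hAL, hsound, hcomplete⟩ := exists_axioms p
  obtain ⟨P, hP, hPe⟩ := re_conseq AL hAL
  have hg : Primrec (fun a : List PL × PL => (TF dom a).code) := primrec_TF hdom
  have hg2 : Primrec (fun a : List PL × PL => Nat.pair 6 (TF dom a).code) := Ax.p_pair (Primrec.const 6) hg
  -- the truth value does not depend on the model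
  have hmod : ∀ a, ∀ (α : Type) (R : RS α), (∀ n e, Sat R e (AL n)) → ∀ x : α,
      (Sat R (fun _ => x) (TF dom a) ↔ (dom a → Sol (tauK p X) a)) := by
    intro a α R hR x
    by_cases hd : dom a
    · obtain ⟨F, σ, rfl, hσ⟩ := @hcomplete α ⟨x⟩ R hR
      have e1 : TF dom a = exc (SysF a) ((SysF a).code + 1) := by simp only [TF, hd, if_true]
      rw [e1, sat_exc_code, exists_sat, h α σ hσ a hd]
      exact ⟨fun h' _ => h', fun h' => h' hd⟩
    · have e1 : TF dom a = .eq 0 0 := by simp only [TF, hd, if_false]
      rw [e1]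
      exact ⟨fun _ h' => absurd h' hd, fun _ => rfl⟩
  have hKK : Mdl p (tauK p) := mdl_KK
  have h1 : ∀ a, (P (TF dom a).code ↔ (dom a → Sol (tauK p X) a)) := by
    intro a
    rw [hPe]
    constructor
    · intro h'
      exact (hmod a (KK p) (ringRS (tauK p X)) (hsound (KK p) (tauK p) hKK) 0).1
        (h' (KK p) _ (hsound (KK p) (tauK p) hKK) 0)
    · intro h' α R hR x
      exact (hmod a α R hR x).2 h'
  have h2 : ∀ a, (P (Nat.pair 6 (TF dom a).code) ↔ ¬ (dom a → Sol (tauK p X) a)) := by
    intro a
    refine (hPe (.neg (TF dom a))).trans ?_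
    constructor
    · intro h' h''
      exact h' (KK p) _ (hsound (KK p) (tauK p) hKK) 0
        ((hmod a (KK p) (ringRS (tauK p X)) (hsound (KK p) (tauK p) hKK) 0).2 h'')
    · intro h' α R hR x h''
      exact h' ((hmod a α R hR x).1 h'')
  have h3 : ComputablePred (fun a : List PL × PL => P (TF dom a).code) := by
    rw [ComputablePred.computable_iff_re_compl_re']
    have h4 : REPred (fun a : List PL × PL => P (Nat.pair 6 (TF dom a).code)) := hP.comp hg2.to_comp
    refine ⟨hP.comp hg.to_comp, h4.of_eq fun a => ?_⟩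
    rw [h1 a]
    exact h2 a
  obtain ⟨D, hD, hDe⟩ := ComputablePred.computable_iff.1 h3
  refine ⟨D, hD, fun a ha => ?_⟩
  have h4 := congrFun hDe a
  rw [← iff_eq_eq] at h4
  rw [← h4, h1 a]
  have h5 : tauK p X = (HahnSeries.single 1 1 : LaurentSeries (ZMod p)) := by
    rw [tauK, RingHom.comp_apply, tau_X]
    exact HahnSeries.ofPowerSeries_X
  rw [← h5]
  exact ⟨fun h' => h' ha, fun h' _ => h'⟩

end LD90
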