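import Pool.Agent.LD90.Defs
import Mathlib

/-!
# From lists of monomials to homogeneous systems
-/

set_option autoImplicit false

namespace LD90

open MvPolynomial

namespace Hg

/-! ### Bounds for the indices of the variables -/

/-- a number above all indices of variables of `f` -/
def bnd (f : PL) : ℕ := (f.map fun m => (m.2.map fun i => i + 1).sum).sum

theorem lt_bnd {f : PL} {m : ℕ × List ℕ} (hm : m ∈ f) {i : ℕ} (hi : i ∈ m.2) : i < bnd f := by
  have h1 : (m.2.map fun i => i + 1).sum ≤ bnd f :=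
    List.le_sum_of_mem (List.mem_map.2 ⟨m, hm, rfl⟩)
  have h2 : i + 1 ≤ (m.2.map fun i => i + 1).sum :=
    List.le_sum_of_mem (List.mem_map.2 ⟨i, hi, rfl⟩)
  omega

theorem length_le_deg {f : PL} {m : ℕ × List ℕ} (hm : m ∈ f) : m.2.length ≤ deg f := by
  induction f with
  | nil => simp at hm
  | cons a f ih =>
    have e : deg (a :: f) = max a.2.length (deg f) := rfl
    rw [e]
    rcases List.mem_cons.1 hm with rfl | h
    · exact le_max_left _ _
    · exact (ih h).trans (le_max_right _ _)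

theorem ev_congr {R : Type*} [CommRing R] (t : R) {x x' : ℕ → R} {f : PL}
    (h : ∀ m ∈ f, ∀ i ∈ m.2, x i = x' i) : ev t x f = ev t x' f := by
  unfold ev
  congr 1
  apply List.map_congr_left
  intro m hm
  have e : m.2.map x = m.2.map x' := List.map_congr_left (h m hm)
  rw [e]

/-! ### Homogenisation -/

variable {k : Type*} [Field k]

/-- the variable of the homogenisation -/
def idx (N i : ℕ) : Fin (N + 1) := ⟨(i + 1) % (N + 1), Nat.mod_lt _ (Nat.succ_pos N)⟩

/-- the homogenisation of a monomial in degree `D` -/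
noncomputable def HM (N : ℕ) (t : k) (D : ℕ) (m : ℕ × List ℕ) : MvPolynomial (Fin (N + 1)) k :=
  C (t ^ m.1) * X 0 ^ (D - m.2.length) * (m.2.map fun i => X (idx N i)).prod

/-- the homogenisation in degree `D` -/
noncomputable def HP (N : ℕ) (t : k) (D : ℕ) (f : PL) : MvPolynomial (Fin (N + 1)) k :=
  (f.map (HM N t D)).sum

theorem hom_prod (N : ℕ) (l : List ℕ) :
    ((l.map fun i => (X (idx N i) : MvPolynomial (Fin (N + 1)) k)).prod).IsHomogeneous l.length := by
  induction l with
  | nil => simpa using isHomogeneous_one (Fin (N + 1)) k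
  | cons a l ih =>
    rw [List.map_cons, List.prod_cons, List.length_cons, Nat.add_comm l.length 1]
    exact (isHomogeneous_X k _).mul ih

theorem hom_HM (N : ℕ) (t : k) {D : ℕ} {m : ℕ × List ℕ} (h : m.2.length ≤ D) :
    (HM N t D m).IsHomogeneous D := by
  have h1 := ((isHomogeneous_C (Fin (N + 1)) (t ^ m.1)).mul
    (isHomogeneous_X_pow (R := k) (0 : Fin (N + 1)) (D - m.2.length))).mul (hom_prod (k := k) N m.2)
  rw [zero_add, Nat.sub_add_cancel h] at h1
  exact h1

theorem hom_HP (N : ℕ) (t : k) {D : ℕ} (f : PL) (h : ∀ m ∈ f, m.2.length ≤ D) :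
    (HP N t D f).IsHomogeneous D := by
  induction f with
  | nil => exact isHomogeneous_zero _ _ _
  | cons a f ih =>
    rw [HP, List.map_cons, List.sum_cons]
    exact (hom_HM N t (h a List.mem_cons_self)).add (ih fun m hm => h m (List.mem_cons_of_mem _ hm))

theorem prod_div {S : Type*} [Field S] (y0 : S) (h : y0 ≠ 0) (u : ℕ → S) (l : List ℕ) :
    (l.map u).prod = y0 ^ l.length * (l.map fun i => u i / y0).prod := by
  induction l with
  | nil => simp
  | cons a l ih =>
    rw [List.map_cons, List.prod_cons, List.map_cons, List.prod_cons, ih, List.length_cons]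
    field_simp
    ring

theorem eval_HP {S : Type*} [Field S] (φ : k →+* S) (N : ℕ) (t : k) {D : ℕ} (f : PL)
    (h : ∀ m ∈ f, m.2.length ≤ D) (y : Fin (N + 1) → S) (hy : y 0 ≠ 0) :
    eval₂ φ y (HP N t D f) = y 0 ^ D * ev (φ t) (fun i => y (idx N i) / y 0) f := by
  induction f with
  | nil => simp [HP, ev]
  | cons a f ih =>
    have e1 : HP N t D (a :: f) = HM N t D a + HP N t D f := by
      rw [HP, List.map_cons, List.sum_cons]
      rfl
    have e2 : ev (φ t) (fun i => y (idx N i) / y 0) (a :: f) =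
        φ t ^ a.1 * (a.2.map fun i => y (idx N i) / y 0).prod +
          ev (φ t) (fun i => y (idx N i) / y 0) f := by
      rw [ev, List.map_cons, List.sum_cons]
      rfl
    rw [e1, e2, eval₂_add, ih fun m hm => h m (List.mem_cons_of_mem _ hm), mul_add]
    congr 1
    have e3 : eval₂ φ y (a.2.map fun i => (X (idx N i) : MvPolynomial (Fin (N + 1)) k)).prod =
        (a.2.map fun i => y (idx N i)).prod := by
      rw [← coe_eval₂Hom, map_list_prod, List.map_map]
      congr 1
      apply List.map_congr_left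
      intro i _
      simp
    have h1 := h a List.mem_cons_self
    rw [HM, eval₂_mul, eval₂_mul, eval₂_C, eval₂_pow, eval₂_X, e3,
      prod_div (y 0) hy (fun i => y (idx N i)), map_pow]
    have e4 : y 0 ^ D = y 0 ^ (D - a.2.length) * y 0 ^ a.2.length := by
      rw [← pow_add, Nat.sub_add_cancel h1]
    rw [e4]
    ring

end Hg

open Hg in
/-- from the homogeneous transfer theorem to systems given by lists of monomials -/
theorem sol_of_sys {k M : Type*} [Field k] [Field M] (j : k →+* M)
    (hsys : ∀ (n : ℕ) (Λ F : List (MvPolynomial (Fin n) k)), (∀ f ∈ Λ, f.IsHomogeneous 1) →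
      ((∃ d ≤ 3, ∃ f : MvPolynomial (Fin n) k, f.IsHomogeneous d ∧ F = [f]) ∨
        ∃ f1 f2 : MvPolynomial (Fin n) k, f1.IsHomogeneous 2 ∧ f2.IsHomogeneous 2 ∧
          F = [f1, f2]) →
      ∀ (g : MvPolynomial (Fin n) k) (x : Fin n → M), (∀ f ∈ Λ, eval₂ j x f = 0) →
      (∀ f ∈ F, eval₂ j x f = 0) → eval₂ j x g ≠ 0 →
      ∃ z : Fin n → k, (∀ f ∈ Λ, eval z f = 0) ∧ (∀ f ∈ F, eval z f = 0) ∧ eval z g ≠ 0)
    (t : k) (a : List PL × PL) (ha : (a.1.map fun f => deg f - 1).sum ≤ 2)
    (h : Sol (j t) a) : Sol t a := by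
  classical
  obtain ⟨x, hx, hg⟩ := h
  -- the number of variables
  set N : ℕ := (a.1.map bnd).sum + bnd a.2 with hN
  have hidx : ∀ i < N, ((idx N i : Fin (N + 1)) : ℕ) = i + 1 := by
    intro i hi
    show (i + 1) % (N + 1) = i + 1
    exact Nat.mod_eq_of_lt (by omega)
  have hbnd : ∀ f ∈ a.1, bnd f ≤ N := by
    intro f hf
    have h1 : bnd f ≤ (a.1.map bnd).sum := List.le_sum_of_mem (List.mem_map.2 ⟨f, hf, rfl⟩)
    omega
  -- the point over `M`
  set y : Fin (N + 1) → M := fun v => if (v : ℕ) = 0 then 1 else x ((v : ℕ) - 1) with hy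
  have hy0 : y 0 = 1 := by simp [hy]
  have hev : ∀ (D : ℕ) (f : PL), bnd f ≤ N → (∀ m ∈ f, m.2.length ≤ D) →
      eval₂ j y (HP N t D f) = ev (j t) x f := by
    intro D f hf hD
    rw [eval_HP j N t f hD y (by rw [hy0]; exact one_ne_zero), hy0, one_pow, one_mul]
    apply ev_congr
    intro m hm i hi
    have h1 : i < N := (lt_bnd hm hi).trans_le hf
    rw [div_one]
    show (if ((idx N i : Fin (N + 1)) : ℕ) = 0 then (1 : M)
      else x (((idx N i : Fin (N + 1)) : ℕ) - 1)) = x i
    rw [hidx i h1, if_neg (Nat.succ_ne_zero i), Nat.add_sub_cancel]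
  set L1 := a.1.filter (fun f => deg f ≤ 1) with hL1
  set L2 := a.1.filter (fun f => ¬ deg f ≤ 1) with hL2
  have hD1 : ∀ f ∈ L1, ∀ m ∈ f, m.2.length ≤ 1 := by
    intro f hf m hm
    have h1 := (List.mem_filter.1 hf).2
    have h2 : deg f ≤ 1 := by simpa using h1
    exact (length_le_deg hm).trans h2
  have hmem1 : ∀ f ∈ L1, f ∈ a.1 := fun f hf => (List.mem_filter.1 hf).1
  have hmem2 : ∀ f ∈ L2, f ∈ a.1 := fun f hf => (List.mem_filter.1 hf).1
  have hdeg2 : ∀ f ∈ L2, 2 ≤ deg f := by
    intro f hf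
    have h1 := (List.mem_filter.1 hf).2
    have h2 : ¬ deg f ≤ 1 := by simpa using h1
    omega
  have hsum : (L2.map fun f => deg f - 1).sum ≤ 2 := by
    refine le_trans ?_ ha
    apply List.Sublist.sum_le_sum
    · exact List.Sublist.map _ (List.filter_sublist)
    · intro u _
      exact Nat.zero_le u
  -- the forms of higher degree
  obtain ⟨F, hF, hF1, hF2⟩ : ∃ F : List (MvPolynomial (Fin (N + 1)) k),
      ((∃ d ≤ 3, ∃ f : MvPolynomial (Fin (N + 1)) k, f.IsHomogeneous d ∧ F = [f]) ∨
        ∃ f1 f2 : MvPolynomial (Fin (N + 1)) k, f1.IsHomogeneous 2 ∧ f2.IsHomogeneous 2 ∧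
          F = [f1, f2]) ∧ (∀ f ∈ F, eval₂ j y f = 0) ∧
      ∀ z : Fin (N + 1) → k, (∀ f ∈ F, eval z f = 0) → ∀ f ∈ L2, eval z (HP N t (deg f) f) = 0 := by
    have hz : ∀ f ∈ L2, eval₂ j y (HP N t (deg f) f) = 0 := by
      intro f hf
      rw [hev (deg f) f (hbnd f (hmem2 f hf)) (fun m hm => length_le_deg hm)]
      exact hx f (hmem2 f hf)
    rcases hc : L2 with _ | ⟨f1, _ | ⟨f2, _ | ⟨f3, L⟩⟩⟩
    · refine ⟨[0], Or.inl ⟨0, by norm_num, 0, isHomogeneous_zero _ _ _, rfl⟩, ?_, ?_⟩
      · intro f hf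
        rw [List.mem_singleton.1 hf]
        simp
      · intro z _ f hf
        simp at hf
    · rw [hc] at hz hsum
      have h1 : deg f1 ≤ 3 := by
        simp only [List.map_cons, List.map_nil, List.sum_cons, List.sum_nil] at hsum
        omega
      refine ⟨[HP N t (deg f1) f1], Or.inl ⟨deg f1, h1, _, hom_HP N t f1
        (fun m hm => length_le_deg hm), rfl⟩, ?_, ?_⟩
      · intro f hf
        rw [List.mem_singleton.1 hf]
        exact hz f1 List.mem_cons_self
      · intro z hz' f hf
        rw [List.mem_singleton.1 hf]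
        exact hz' _ List.mem_cons_self
    · rw [hc] at hz hsum hdeg2
      have h1 := hdeg2 f1 List.mem_cons_self
      have h2 := hdeg2 f2 (by simp)
      simp only [List.map_cons, List.map_nil, List.sum_cons, List.sum_nil] at hsum
      have e1 : deg f1 = 2 := by omega
      have e2 : deg f2 = 2 := by omega
      refine ⟨[HP N t (deg f1) f1, HP N t (deg f2) f2], Or.inr ⟨_, _, ?_, ?_, rfl⟩, ?_, ?_⟩
      · have h3 := hom_HP N t f1 (D := deg f1) (fun m hm => length_le_deg hm)
        rwa [e1] at h3 ⊢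
      · have h3 := hom_HP N t f2 (D := deg f2) (fun m hm => length_le_deg hm)
        rwa [e2] at h3 ⊢
      · intro f hf
        simp only [List.mem_cons, List.not_mem_nil, or_false] at hf
        rcases hf with rfl | rfl
        · exact hz f1 List.mem_cons_self
        · exact hz f2 (by simp)
      · intro z hz' f hf
        simp only [List.mem_cons, List.not_mem_nil, or_false] at hf
        rcases hf with rfl | rfl
        · exact hz' _ List.mem_cons_self
        · exact hz' _ (by simp)
    · exfalso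
      rw [hc] at hsum hdeg2
      have h1 := hdeg2 f1 List.mem_cons_self
      have h2 := hdeg2 f2 (by simp)
      have h3 := hdeg2 f3 (by simp)
      simp only [List.map_cons, List.sum_cons] at hsum
      omega
  -- the transfer
  have hΛ : ∀ f ∈ L1.map (HP N t 1), f.IsHomogeneous 1 := by
    intro f hf
    obtain ⟨f', hf', rfl⟩ := List.mem_map.1 hf
    exact hom_HP N t f' (hD1 f' hf')
  obtain ⟨z, hz1, hz2, hz3⟩ := hsys (N + 1) (L1.map (HP N t 1)) F hΛ hF
    (X 0 * HP N t (deg a.2) a.2) y (by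
      intro f hf
      obtain ⟨f', hf', rfl⟩ := List.mem_map.1 hf
      rw [hev 1 f' (hbnd f' (hmem1 f' hf')) (hD1 f' hf')]
      exact hx f' (hmem1 f' hf')) hF1 (by
      rw [eval₂_mul, eval₂_X, hy0, one_mul, hev (deg a.2) a.2 (by omega)
        (fun m hm => length_le_deg hm)]
      exact hg)
  rw [eval_mul, eval_X] at hz3
  have hz0 : z 0 ≠ 0 := left_ne_zero_of_mul hz3
  have hzg := right_ne_zero_of_mul hz3
  have hevz : ∀ (D : ℕ) (f : PL), (∀ m ∈ f, m.2.length ≤ D) →
      eval z (HP N t D f) = z 0 ^ D * ev t (fun i => z (idx N i) / z 0) f := by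
    intro D f hD
    have h1 := eval_HP (RingHom.id k) N t f hD z hz0
    rw [RingHom.id_apply] at h1
    exact h1
  refine ⟨fun i => z (idx N i) / z 0, ?_, ?_⟩
  · intro f hf
    by_cases hd : deg f ≤ 1
    · have h1 : f ∈ L1 := List.mem_filter.2 ⟨hf, by simpa using hd⟩
      have h2 := hz1 (HP N t 1 f) (List.mem_map.2 ⟨f, h1, rfl⟩)
      rw [hevz 1 f (hD1 f h1)] at h2
      exact (mul_eq_zero.1 h2).resolve_left (pow_ne_zero _ hz0)
    · have h1 : f ∈ L2 := List.mem_filter.2 ⟨hf, by simpa using hd⟩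
      have h2 := hF2 z hz2 f h1
      rw [hevz (deg f) f (fun m hm => length_le_deg hm)] at h2
      exact (mul_eq_zero.1 h2).resolve_left (pow_ne_zero _ hz0)
  · intro h1
    apply hzg
    rw [hevz (deg a.2) a.2 (fun m hm => length_le_deg hm), h1, mul_zero]

end LD90
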