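import Pool.Agent.LD90.NF

/-!
# Forms of degree at most three
-/

namespace LD90

open MvPolynomial

section fac

variable {k M : Type*} [Field k] [Field M]

/-- an irreducible homogeneous factor which vanishes at the given point -/
theorem exists_factor (j : k →+* M) {n d : ℕ} {f : MvPolynomial (Fin n) k}
    (hf : f.IsHomogeneous d) (h0 : f ≠ 0) {x : Fin n → M} (hx : eval₂ j x f = 0) :
    ∃ (f1 : MvPolynomial (Fin n) k) (e : ℕ), e ≤ d ∧ f1.IsHomogeneous e ∧ Irreducible f1 ∧
      f1 ∣ f ∧ eval₂ j x f1 = 0 := by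
  obtain ⟨s, hs, u, hu⟩ := UniqueFactorizationMonoid.exists_prime_factors f h0
  have h1 : eval₂ j x (s.prod * (u : MvPolynomial (Fin n) k)) = 0 := by rw [hu]; exact hx
  have hun : IsUnit (eval₂ j x (u : MvPolynomial (Fin n) k)) := u.isUnit.map (eval₂Hom j x)
  rw [eval₂_mul, mul_eq_zero, or_iff_left hun.ne_zero] at h1
  have h2 : (s.map (eval₂Hom j x)).prod = 0 := by
    rw [← map_multiset_prod]
    exact h1
  obtain ⟨f1, hf1, hf1x⟩ := Multiset.mem_map.1 (Multiset.prod_eq_zero_iff.1 h2)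
  have hdvd : f1 ∣ f := by
    rw [← hu]
    exact (Multiset.dvd_prod hf1).mul_right _
  obtain ⟨b, hb⟩ := hdvd
  obtain ⟨e, he⟩ := hom_factor (hb ▸ hf) (hb ▸ h0)
  have hprime := hs f1 hf1
  refine ⟨f1, e, ?_, he, hprime.irreducible, ⟨b, hb⟩, hf1x⟩
  have hf10 : f1 ≠ 0 := hprime.ne_zero
  have hb0 : b ≠ 0 := by
    rintro rfl
    rw [mul_zero] at hb
    exact h0 hb
  have h3 := totalDegree_mul_of_isDomain hf10 hb0
  rw [← hb, hf.totalDegree h0, he.totalDegree hf10] at h3
  omega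

end fac

section cub

variable {k K M : Type*} [Field k] [Field K] [Field M] {i : k →+* K} {j : k →+* M}
  {O : ValuationSubring M} {st : O →+* K}

theorem eval_of_eval₂ (j : k →+* M) {n : ℕ} {z : Fin n → k} {f : MvPolynomial (Fin n) k} :
    eval₂ j (fun a => j (z a)) f = 0 ↔ eval z f = 0 := by
  rw [eval₂_comp_eval, map_eq_zero]

/-- a nonzero value of a polynomial in the first coordinate: some coefficient is nonzero -/
theorem exists_coeff_ne {A : Type*} [CommRing A] {m : ℕ} (φ : k →+* A) (v : Fin m → A) (s : A)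
    (G : Polynomial (MvPolynomial (Fin m) k))
    (h : Polynomial.eval₂ (eval₂Hom φ v) s G ≠ 0) : ∃ a, eval₂ φ v (G.coeff a) ≠ 0 := by
  by_contra hcon
  push Not at hcon
  apply h
  rw [Polynomial.eval₂_eq_sum_range]
  exact Finset.sum_eq_zero fun a _ => by
    rw [coe_eval₂Hom, hcon a, zero_mul]

theorem exists_s [Infinite k] {m : ℕ} (v : Fin m → k) (G : Polynomial (MvPolynomial (Fin m) k))
    {a : ℕ} (h : eval v (G.coeff a) ≠ 0) :
    ∃ s : k, Polynomial.eval₂ (eval₂Hom (RingHom.id k) v) s G ≠ 0 := by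
  have h1 : G.map (eval₂Hom (RingHom.id k) v) ≠ 0 := by
    intro h2
    have h3 := congrArg (fun P => Polynomial.coeff P a) h2
    simp only [Polynomial.coeff_map, Polynomial.coeff_zero, coe_eval₂Hom] at h3
    rw [MvPolynomial.eval₂_id] at h3
    exact h h3
  by_contra hcon
  push Not at hcon
  apply h1
  apply Polynomial.funext
  intro s
  rw [Polynomial.eval_map, hcon s, Polynomial.eval_zero]

theorem eval_ptk {m : ℕ} {l : Fin (m + 1)} {c : Fin (m + 1) → k} (hc : c l = 0) (s : k)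
    (v : Fin m → k) (f : MvPolynomial (Fin (m + 1)) k) :
    eval (ptk l c s v) f = Polynomial.eval₂ (eval₂Hom (RingHom.id k) v) s (Ph l c hc f) := by
  rw [eval₂_Ph, MvPolynomial.eval₂_id]
  rfl

/-- the singular case -/
theorem cubic_sing [Infinite k] {m d : ℕ} (hd : d ≤ 3) {f g : MvPolynomial (Fin (m + 1)) k}
    (hf : f.IsHomogeneous d) (hirr : Irreducible f) (hfg : ¬ f ∣ g) {x : Fin (m + 1) → M}
    (h0 : eval₂ j x f = 0) (h1 : eval₂ j x g ≠ 0)
    (IH : ∀ (f g : MvPolynomial (Fin m) k), f.IsHomogeneous d → ∀ (x : Fin m → M),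
      eval₂ j x f = 0 → eval₂ j x g ≠ 0 → ∃ z : Fin m → k, eval z f = 0 ∧ eval z g ≠ 0)
    {l : Fin (m + 1)} {ξ : Fin (m + 1) → k} (hξ : ξ l = 1) (h2 : eval ξ f = 0)
    (h3 : ∀ a, eval ξ (pderiv a f) = 0) :
    ∃ z : Fin (m + 1) → k, eval z f = 0 ∧ eval z g ≠ 0 := by
  set c := Function.update ξ l 0 with hcdef
  have hc : c l = 0 := by rw [hcdef, Function.update_self]
  have hξ' : ptk l c 1 (fun _ => 0) = ξ := ptk_update l ξ hξ
  set F := Ph l c hc f with hF
  set G := Ph l c hc g with hG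
  have hFirr : Irreducible F := (MulEquiv.irreducible_iff (Ph l c hc).toMulEquiv).2 hirr
  have hFG : ¬ F ∣ G := by
    rintro ⟨H, hH⟩
    apply hfg
    refine ⟨(Ph l c hc).symm H, ?_⟩
    apply (Ph l c hc).injective
    rw [map_mul, AlgEquiv.apply_symm_apply]
    exact hH
  have hcoef : ∀ a, 2 ≤ a → F.coeff a = 0 := by
    intro a ha
    rcases lt_trichotomy a d with h4 | h4 | h4
    · have h5 : d = a + 1 := by omega
      subst h5
      exact nf_one hf (by rw [hξ']; exact h3)
    · subst h4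
      exact nf_zero hf (by rw [hξ']; exact h2)
    · exact Ph_coeff_gt hf a h4
  have hnf := nf_le_one hcoef
  set c0 := F.coeff 0 with hc0
  set c1 := F.coeff 1 with hc1
  by_cases hc1z : c1 = 0
  · -- cone
    have hFc : F = Polynomial.C c0 := by rw [hF, hnf, hc1z, Polynomial.C_0, mul_zero, add_zero]
    obtain ⟨s, v, rfl⟩ := exists_pt j l c hc x
    rw [← eval₂_Ph (hc := hc)] at h0 h1
    rw [← hF, hFc, Polynomial.eval₂_C, coe_eval₂Hom] at h0
    obtain ⟨a, ha⟩ := exists_coeff_ne j v s G h1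
    obtain ⟨v0, hv0, hv1⟩ := IH c0 (G.coeff a) (hom_Ph hf 0 d (zero_add d)) v h0 ha
    obtain ⟨s0, hs0⟩ := exists_s v0 G hv1
    refine ⟨ptk l c s0 v0, ?_, ?_⟩
    · rw [eval_ptk hc, ← hF, hFc, Polynomial.eval₂_C, coe_eval₂Hom, MvPolynomial.eval₂_id]
      exact hv0
    · rw [eval_ptk hc]
      exact hs0
  · -- birational parametrisation
    have hdeg : F.natDegree ≠ 0 := by
      intro h4
      apply hc1z
      rw [hc1]
      exact Polynomial.coeff_eq_zero_of_natDegree_lt (by omega)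
    obtain ⟨A, B, r, hr, hAB⟩ := bez hFirr hdeg hFG
    obtain ⟨v, hv⟩ := exists_eval_ne (mul_ne_zero hc1z hr)
    rw [map_mul] at hv
    have hv1 : eval v c1 ≠ 0 := left_ne_zero_of_mul hv
    have hv2 : eval v r ≠ 0 := right_ne_zero_of_mul hv
    have hFev : Polynomial.eval₂ (eval₂Hom (RingHom.id k) v) (-(eval v c0) / eval v c1) F = 0 := by
      rw [hF, hnf, Polynomial.eval₂_add, Polynomial.eval₂_mul, Polynomial.eval₂_C,
        Polynomial.eval₂_X, Polynomial.eval₂_C, coe_eval₂Hom, MvPolynomial.eval₂_id,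
        MvPolynomial.eval₂_id]
      field_simp
      ring
    refine ⟨ptk l c (-(eval v c0) / eval v c1) v, ?_, ?_⟩
    · rw [eval_ptk hc]
      exact hFev
    · rw [eval_ptk hc]
      intro h4
      rw [← hG] at h4
      have h5 := congrArg (Polynomial.eval₂ (eval₂Hom (RingHom.id k) v)
        (-(eval v c0) / eval v c1)) hAB
      rw [Polynomial.eval₂_add, Polynomial.eval₂_mul, Polynomial.eval₂_mul, hFev, h4,
        mul_zero, mul_zero, add_zero, Polynomial.eval₂_C, coe_eval₂Hom,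
        MvPolynomial.eval₂_id] at h5
      exact hv2 h5.symm

/-- forms of degree at most three, from the smooth case -/
theorem cubic_of (hC : Ctx i j O st)
    (hsm : ∀ (n : ℕ) (f g : MvPolynomial (Fin n) k), Irreducible f → ¬ f ∣ g →
      ∀ ξ : Fin n → K, eval₂ i ξ f = 0 → ∀ l : Fin n, eval₂ i ξ (pderiv l f) ≠ 0 →
      ∃ y : Fin n → K, eval₂ i y f = 0 ∧ eval₂ i y g ≠ 0)
    (n d : ℕ) (hd : d ≤ 3) : ∀ (f g : MvPolynomial (Fin n) k),
    f.IsHomogeneous d → ∀ (x : Fin n → M), eval₂ j x f = 0 → eval₂ j x g ≠ 0 →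
    ∃ z : Fin n → k, eval z f = 0 ∧ eval z g ≠ 0 := by
  classical
  haveI := hC.inf
  induction n generalizing d with
  | zero =>
    intro f g hf x h0 h1
    have hx : x = fun a => j ((fun _ => 0 : Fin 0 → k) a) := Subsingleton.elim _ _
    rw [hx] at h0 h1
    exact ⟨fun _ => 0, (eval_of_eval₂ j).1 h0, fun h => h1 ((eval_of_eval₂ j).2 h)⟩
  | succ m IH =>
    intro f g hf x h0 h1
    by_cases hfz : f = 0
    · have hg : g ≠ 0 := by
        rintro rfl
        exact h1 (eval₂_zero _ _)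
      obtain ⟨z, hz⟩ := exists_eval_ne hg
      exact ⟨z, by rw [hfz, map_zero], hz⟩
    obtain ⟨f1, e, he, hf1, hirr, hdvd, hx1⟩ := exists_factor j hf hfz h0
    suffices h : ∃ z : Fin (m + 1) → k, eval z f1 = 0 ∧ eval z g ≠ 0 by
      obtain ⟨z, hz1, hz2⟩ := h
      obtain ⟨b, rfl⟩ := hdvd
      exact ⟨z, by rw [map_mul, hz1, zero_mul], hz2⟩
    have hfg : ¬ f1 ∣ g := by
      rintro ⟨b, rfl⟩
      exact h1 (by rw [eval₂_mul, hx1, zero_mul])
    by_cases hx : x = 0
    · subst hx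
      have hz : (0 : Fin (m + 1) → M) = fun a => j ((fun _ => 0 : Fin (m + 1) → k) a) := by
        funext a
        simp
      rw [hz] at hx1 h1
      exact ⟨fun _ => 0, (eval_of_eval₂ j).1 hx1, fun h => h1 ((eval_of_eval₂ j).2 h)⟩
    obtain ⟨l, ξ, hξl, hξ⟩ := exists_place_point hC hx
    have hξ0 := hξ f1 e hf1 hx1
    by_cases hsing : ∀ a, eval₂ i ξ (pderiv a f1) = 0
    · obtain ⟨ξ0, hS, -⟩ := hC.ec (m + 1) ξ
        (insert f1 (insert (X l - 1) (Finset.univ.image fun a => pderiv a f1))) 1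
        (by
          intro q hq
          rcases Finset.mem_insert.1 hq with rfl | hq
          · exact hξ0
          rcases Finset.mem_insert.1 hq with rfl | hq
          · rw [eval₂_sub, eval₂_X, eval₂_one, hξl, sub_self]
          obtain ⟨a, -, rfl⟩ := Finset.mem_image.1 hq
          exact hsing a)
        (by rw [eval₂_one]; exact one_ne_zero)
      have hl1 := hS (X l - 1) (Finset.mem_insert_of_mem (Finset.mem_insert_self _ _))
      rw [map_sub, eval_X, map_one, sub_eq_zero] at hl1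
      exact cubic_sing (he.trans hd) hf1 hirr hfg hx1 h1 (fun f g hf => IH e (he.trans hd) f g hf)
        hl1 (hS f1 (Finset.mem_insert_self _ _)) (fun a => hS _ (Finset.mem_insert_of_mem
          (Finset.mem_insert_of_mem (Finset.mem_image_of_mem _ (Finset.mem_univ a)))))
    · push Not at hsing
      obtain ⟨a, ha⟩ := hsing
      obtain ⟨y, hy0, hy1⟩ := hsm (m + 1) f1 g hirr hfg ξ hξ0 a ha
      obtain ⟨z, hz0, hz1⟩ := hC.ec (m + 1) y {f1} g
        (fun q hq => by rw [Finset.mem_singleton.1 hq]; exact hy0) hy1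
      exact ⟨z, hz0 f1 (Finset.mem_singleton_self _), hz1⟩

end cub

end LD90
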