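import Pool.Agent.LD90.Lin
import Pool.Agent.LD90.Cubic

/-!
# Two quadratic forms
-/

namespace LD90

open MvPolynomial

section homogenised

variable {k : Type*} [Field k] {m : ℕ}

/-- the homogenised third polynomial -/
noncomputable def Gh (a0 a1 : MvPolynomial (Fin m) k) (G : Polynomial (MvPolynomial (Fin m) k)) :
    MvPolynomial (Fin m) k :=
  ∑ a ∈ Finset.range (G.natDegree + 1), G.coeff a * (-a0) ^ a * a1 ^ (G.natDegree - a)

theorem Gh_eval {A : Type*} [CommRing A] (φ : k →+* A) (w : Fin m → A) (s : A)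
    (a0 a1 : MvPolynomial (Fin m) k) (G : Polynomial (MvPolynomial (Fin m) k))
    (h : eval₂ φ w a0 + s * eval₂ φ w a1 = 0) :
    eval₂ φ w (Gh a0 a1 G) =
      (eval₂ φ w a1) ^ G.natDegree * Polynomial.eval₂ (eval₂Hom φ w) s G := by
  have h' : -eval₂ φ w a0 = s * eval₂ φ w a1 := by linear_combination -h
  rw [Gh, eval₂_sum, Polynomial.eval₂_eq_sum_range, Finset.mul_sum]
  refine Finset.sum_congr rfl fun a ha => ?_
  have ha' : a ≤ G.natDegree := by
    have := Finset.mem_range.1 ha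
    omega
  rw [eval₂_mul, eval₂_mul, eval₂_pow, eval₂_pow, eval₂_neg, h', coe_eval₂Hom, mul_pow]
  have h2 : (eval₂ φ w a1) ^ G.natDegree =
      (eval₂ φ w a1) ^ a * (eval₂ φ w a1) ^ (G.natDegree - a) := by
    rw [← pow_add]
    congr 1
    omega
  rw [h2]
  ring

end homogenised

section quad

variable {k K M : Type*} [Field k] [Field K] [Field M] {i : k →+* K} {j : k →+* M}
  {O : ValuationSubring M} {st : O →+* K}

/-- the main case -/
theorem quad2_C {m : ℕ}
    (hcub : ∀ (f g : MvPolynomial (Fin m) k), f.IsHomogeneous 3 →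
      ∀ (x : Fin m → M), eval₂ j x f = 0 → eval₂ j x g ≠ 0 →
      ∃ z : Fin m → k, eval z f = 0 ∧ eval z g ≠ 0)
    {a0 a1 b0 b1 : MvPolynomial (Fin m) k} (ha0 : a0.IsHomogeneous 2) (ha1 : a1.IsHomogeneous 1)
    (hb0 : b0.IsHomogeneous 2) (hb1 : b1.IsHomogeneous 1)
    (G : Polynomial (MvPolynomial (Fin m) k)) (v : Fin m → M) (s : M)
    (h1 : eval₂ j v a0 + s * eval₂ j v a1 = 0) (h2 : eval₂ j v b0 + s * eval₂ j v b1 = 0)
    (h3 : Polynomial.eval₂ (eval₂Hom j v) s G ≠ 0) (h4 : eval₂ j v a1 ≠ 0) :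
    ∃ (v0 : Fin m → k) (s0 : k), eval v0 a0 + s0 * eval v0 a1 = 0 ∧
      eval v0 b0 + s0 * eval v0 b1 = 0 ∧
      Polynomial.eval₂ (eval₂Hom (RingHom.id k) v0) s0 G ≠ 0 := by
  have hD : (a1 * b0 - b1 * a0).IsHomogeneous 3 := by
    have e1 : (a1 * b0).IsHomogeneous (1 + 2) := ha1.mul hb0
    have e2 : (b1 * a0).IsHomogeneous (1 + 2) := hb1.mul ha0
    exact e1.sub e2
  have hDv : eval₂ j v (a1 * b0 - b1 * a0) = 0 := by
    rw [eval₂_sub, eval₂_mul, eval₂_mul]
    linear_combination (eval₂ j v a1) * h2 - (eval₂ j v b1) * h1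
  have hGv : eval₂ j v (a1 * Gh a0 a1 G) ≠ 0 := by
    rw [eval₂_mul, Gh_eval j v s a0 a1 G h1]
    exact mul_ne_zero h4 (mul_ne_zero (pow_ne_zero _ h4) h3)
  obtain ⟨v0, hv0, hv1⟩ := hcub _ _ hD v hDv hGv
  rw [map_mul] at hv1
  have hv2 : eval v0 a1 ≠ 0 := left_ne_zero_of_mul hv1
  have hv3 : eval v0 (Gh a0 a1 G) ≠ 0 := right_ne_zero_of_mul hv1
  rw [map_sub, map_mul, map_mul] at hv0
  have hs : eval v0 a0 + -(eval v0 a0) / eval v0 a1 * eval v0 a1 = 0 := by
    field_simp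
    ring
  refine ⟨v0, -(eval v0 a0) / eval v0 a1, hs, ?_, ?_⟩
  · have : eval v0 a1 * (eval v0 b0 + -(eval v0 a0) / eval v0 a1 * eval v0 b1) = 0 := by
      field_simp
      linear_combination hv0
    exact (mul_eq_zero.1 this).resolve_left hv2
  · intro h5
    apply hv3
    have h6 := Gh_eval (RingHom.id k) v0 (-(eval v0 a0) / eval v0 a1) a0 a1 G (by
      rw [MvPolynomial.eval₂_id, MvPolynomial.eval₂_id]
      exact hs)
    rw [h5, mul_zero, MvPolynomial.eval₂_id] at h6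
    exact h6

/-- pull-back of a linear form -/
theorem lin_pull [Infinite k] (j : k →+* M) {m : ℕ} {l : Fin (m + 1)} {c : Fin (m + 1) → k}
    (hc : c l = 0) {a1 : MvPolynomial (Fin m) k} (ha1 : a1.IsHomogeneous 1) (h0 : a1 ≠ 0) :
    ∃ ℓ : MvPolynomial (Fin (m + 1)) k, ℓ.IsHomogeneous 1 ∧ ℓ ≠ 0 ∧
      ∀ (s : M) (v : Fin m → M), eval₂ j v a1 = 0 → eval₂ j (pt j l c s v) ℓ = 0 := by
  let L : Fin m → MvPolynomial (Fin (m + 1)) k := fun b =>
    X (Equiv.swap 0 l b.succ) - C (c (Equiv.swap 0 l b.succ)) * X l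
  have hL : ∀ b, (L b).IsHomogeneous 1 := fun b =>
    (isHomogeneous_X k _).sub (isHomogeneous_C_mul_X _ l)
  refine ⟨aeval L a1, hom_aeval ha1 hL, ?_, ?_⟩
  · intro h1
    apply h0
    apply eq_zero_of_eval
    intro w
    have h2 := eval₂_aeval (RingHom.id k) (pt (RingHom.id k) l c 0 w) L a1
    rw [h1, eval₂_zero] at h2
    have h3 : (fun a => eval₂ (RingHom.id k) (pt (RingHom.id k) l c 0 w) (L a)) = w :=
      funext fun b => by
        rw [eval₂_sub, eval₂_mul, eval₂_X, eval₂_C, eval₂_X]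
        rw [pt, pt, pt0_self, pt0_swap, hc, map_zero, zero_mul, add_zero]
        ring
    rw [h3, MvPolynomial.eval₂_id] at h2
    exact h2.symm
  · intro s v hv
    rw [eval₂_aeval]
    have h3 : (fun a => eval₂ j (pt j l c s v) (L a)) = v :=
      funext fun b => by
        rw [eval₂_sub, eval₂_mul, eval₂_X, eval₂_C, eval₂_X]
        rw [pt, pt, pt0_self, pt0_swap, hc, map_zero, zero_mul, add_zero]
        ring
    rw [h3]
    exact hv

/-- two quadratic forms, from the case of one cubic form -/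
theorem quad2_of (hC : Ctx i j O st)
    (hcub : ∀ (n d : ℕ), d ≤ 3 → ∀ (f g : MvPolynomial (Fin n) k), f.IsHomogeneous d →
      ∀ (x : Fin n → M), eval₂ j x f = 0 → eval₂ j x g ≠ 0 →
      ∃ z : Fin n → k, eval z f = 0 ∧ eval z g ≠ 0) (n : ℕ) :
    ∀ (f1 f2 g : MvPolynomial (Fin n) k), f1.IsHomogeneous 2 → f2.IsHomogeneous 2 →
      ∀ x : Fin n → M, eval₂ j x f1 = 0 → eval₂ j x f2 = 0 → eval₂ j x g ≠ 0 →
      ∃ z : Fin n → k, eval z f1 = 0 ∧ eval z f2 = 0 ∧ eval z g ≠ 0 := by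
  classical
  have := hC.inf
  induction n with
  | zero =>
    intro f1 f2 g hf1 hf2 x h1 h2 h3
    have hx : x = fun a => j ((fun _ => 0 : Fin 0 → k) a) := Subsingleton.elim _ _
    rw [hx] at h1 h2 h3
    exact ⟨fun _ => 0, (eval_of_eval₂ j).1 h1, (eval_of_eval₂ j).1 h2,
      fun h => h3 ((eval_of_eval₂ j).2 h)⟩
  | succ m IH =>
    intro f1 f2 g hf1 hf2 x h1 h2 h3
    by_cases hx : x = 0
    · subst hx
      have hz : (0 : Fin (m + 1) → M) = fun a => j ((fun _ => 0 : Fin (m + 1) → k) a) := by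
        funext a
        simp
      rw [hz] at h1 h2 h3
      exact ⟨fun _ => 0, (eval_of_eval₂ j).1 h1, (eval_of_eval₂ j).1 h2,
        fun h => h3 ((eval_of_eval₂ j).2 h)⟩
    obtain ⟨l, ξ, hξl, hξ⟩ := exists_place_point hC hx
    obtain ⟨ξ0, hS, -⟩ := hC.ec (m + 1) ξ
      (insert f1 (insert f2 {X l - 1})) 1
      (by
        intro q hq
        rcases Finset.mem_insert.1 hq with rfl | hq
        · exact hξ _ 2 hf1 h1
        rcases Finset.mem_insert.1 hq with rfl | hq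
        · exact hξ _ 2 hf2 h2
        rw [Finset.mem_singleton.1 hq, eval₂_sub, eval₂_X, eval₂_one, hξl, sub_self])
      (by rw [eval₂_one]; exact one_ne_zero)
    have hl1 := hS (X l - 1) (Finset.mem_insert_of_mem (Finset.mem_insert_of_mem
      (Finset.mem_singleton_self _)))
    rw [map_sub, eval_X, map_one, sub_eq_zero] at hl1
    have hp1 := hS f1 (Finset.mem_insert_self _ _)
    have hp2 := hS f2 (Finset.mem_insert_of_mem (Finset.mem_insert_self _ _))
    obtain ⟨c, hcdef⟩ : ∃ c, c = Function.update ξ0 l 0 := ⟨_, rfl⟩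
    have hc : c l = 0 := by rw [hcdef, Function.update_self]
    have hξ' : ptk l c 1 (fun _ => 0) = ξ0 := hcdef ▸ ptk_update l ξ0 hl1
    have hcoef : ∀ f : MvPolynomial (Fin (m + 1)) k, f.IsHomogeneous 2 → eval ξ0 f = 0 →
        ∀ a, 2 ≤ a → (Ph l c hc f).coeff a = 0 := by
      intro f hf hf0 a ha
      rcases eq_or_lt_of_le ha with h4 | h4
      · subst h4
        exact nf_zero hf (by rw [hξ']; exact hf0)
      · exact Ph_coeff_gt hf a h4
    have hnf1 := nf_le_one (hcoef f1 hf1 hp1)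
    have hnf2 := nf_le_one (hcoef f2 hf2 hp2)
    have ha0 := hom_Ph (hc := hc) hf1 0 2 rfl
    have ha1 := hom_Ph (hc := hc) hf1 1 1 rfl
    have hb0 := hom_Ph (hc := hc) hf2 0 2 rfl
    have hb1 := hom_Ph (hc := hc) hf2 1 1 rfl
    -- evaluation of the normal forms
    have evM : ∀ (f : MvPolynomial (Fin (m + 1)) k) (s : M) (v : Fin m → M),
        Ph l c hc f = Polynomial.C ((Ph l c hc f).coeff 0) +
          Polynomial.X * Polynomial.C ((Ph l c hc f).coeff 1) →
        eval₂ j (pt j l c s v) f = eval₂ j v ((Ph l c hc f).coeff 0) +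
          s * eval₂ j v ((Ph l c hc f).coeff 1) := by
      intro f s v h
      rw [← eval₂_Ph (hc := hc)]
      conv_lhs => rw [h]
      rw [Polynomial.eval₂_add, Polynomial.eval₂_mul, Polynomial.eval₂_C,
        Polynomial.eval₂_X, Polynomial.eval₂_C, coe_eval₂Hom]
    have evk : ∀ (f : MvPolynomial (Fin (m + 1)) k) (s : k) (v : Fin m → k),
        Ph l c hc f = Polynomial.C ((Ph l c hc f).coeff 0) +
          Polynomial.X * Polynomial.C ((Ph l c hc f).coeff 1) →
        eval (ptk l c s v) f = eval v ((Ph l c hc f).coeff 0) +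
          s * eval v ((Ph l c hc f).coeff 1) := by
      intro f s v h
      rw [eval_ptk hc]
      conv_lhs => rw [h]
      rw [Polynomial.eval₂_add, Polynomial.eval₂_mul, Polynomial.eval₂_C,
        Polynomial.eval₂_X, Polynomial.eval₂_C, coe_eval₂Hom, MvPolynomial.eval₂_id,
        MvPolynomial.eval₂_id]
    obtain ⟨s, v, rfl⟩ := exists_pt j l c hc x
    have e1 := (evM f1 s v hnf1).symm.trans h1
    have e2 := (evM f2 s v hnf2).symm.trans h2
    have e3 := h3
    rw [← eval₂_Ph (hc := hc)] at e3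
    have hcub3 := hcub m 3 le_rfl
    by_cases hA : eval₂ j v ((Ph l c hc f1).coeff 1) = 0
    · by_cases hB : eval₂ j v ((Ph l c hc f2).coeff 1) = 0
      · by_cases hz : (Ph l c hc f1).coeff 1 = 0 ∧ (Ph l c hc f2).coeff 1 = 0
        · -- both are cones
          obtain ⟨a, ha⟩ := exists_coeff_ne j v s (Ph l c hc g) e3
          rw [hA, mul_zero, add_zero] at e1
          rw [hB, mul_zero, add_zero] at e2
          obtain ⟨v0, hv0, hv1, hv2⟩ := IH _ _ _ ha0 hb0 v e1 e2 ha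
          obtain ⟨s0, hs0⟩ := exists_s v0 (Ph l c hc g) hv2
          refine ⟨ptk l c s0 v0, ?_, ?_, ?_⟩
          · rw [evk f1 s0 v0 hnf1, hz.1, hv0, map_zero, mul_zero, add_zero]
          · rw [evk f2 s0 v0 hnf2, hz.2, hv1, map_zero, mul_zero, add_zero]
          · rw [eval_ptk hc]
            exact hs0
        · -- a linear form vanishes at the point
          obtain ⟨ℓ, hℓ, hℓ0, hℓv⟩ : ∃ ℓ : MvPolynomial (Fin (m + 1)) k, ℓ.IsHomogeneous 1 ∧
              ℓ ≠ 0 ∧ eval₂ j (pt j l c s v) ℓ = 0 := by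
            by_cases hz1 : (Ph l c hc f1).coeff 1 = 0
            · have hz2 : (Ph l c hc f2).coeff 1 ≠ 0 := fun h => hz ⟨hz1, h⟩
              obtain ⟨ℓ, q1, q2, q3⟩ := lin_pull j hc hb1 hz2
              exact ⟨ℓ, q1, q2, q3 s v hB⟩
            · obtain ⟨ℓ, q1, q2, q3⟩ := lin_pull j hc ha1 hz1
              exact ⟨ℓ, q1, q2, q3 s v hA⟩
          obtain ⟨A, u, hAh, hu, -⟩ := lin_elim j hℓ hℓ0 hℓv
          have hxe : pt j l c s v = fun a => eval₂ j u (A a) := funext hu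
          obtain ⟨w, hw1, hw2, hw3⟩ := IH (aeval A f1) (aeval A f2) (aeval A g)
            (hom_aeval hf1 hAh) (hom_aeval hf2 hAh) u
            (by rw [eval₂_aeval, ← hxe]; exact h1) (by rw [eval₂_aeval, ← hxe]; exact h2)
            (by rw [eval₂_aeval, ← hxe]; exact h3)
          rw [eval_aeval] at hw1 hw2 hw3
          exact ⟨fun a => eval w (A a), hw1, hw2, hw3⟩
      · obtain ⟨v0, s0, q1, q2, q3⟩ := quad2_C hcub3 hb0 hb1 ha0 ha1 (Ph l c hc g) v s e2 e1 e3 hB
        refine ⟨ptk l c s0 v0, ?_, ?_, ?_⟩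
        · rw [evk f1 s0 v0 hnf1, q2]
        · rw [evk f2 s0 v0 hnf2, q1]
        · rw [eval_ptk hc]
          exact q3
    · obtain ⟨v0, s0, q1, q2, q3⟩ := quad2_C hcub3 ha0 ha1 hb0 hb1 (Ph l c hc g) v s e1 e2 e3 hA
      refine ⟨ptk l c s0 v0, ?_, ?_, ?_⟩
      · rw [evk f1 s0 v0 hnf1, q1]
      · rw [evk f2 s0 v0 hnf2, q2]
      · rw [eval_ptk hc]
        exact q3

end quad

end LD90
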