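import Pool.Agent.LD90.Ctx

/-!
# Smooth points of irreducible hypersurfaces over large fields
-/

set_option maxSynthPendingDepth 10

namespace LD90

open MvPolynomial

section

variable {k K M : Type*} [Field k] [Field K] [Field M] {i : k →+* K} {j : k →+* M}
  {O : ValuationSubring M} {st : O →+* K}

/-- `hom_eval₂` for a family -/
theorem hom_ev {n : ℕ} {A B : Type*} [CommRing A] [CommRing B] (φ : k →+* A) (ψ : A →+* B)
    (x : Fin n → A) (f : MvPolynomial (Fin n) k) :
    ψ (eval₂ φ x f) = eval₂ (ψ.comp φ) (fun a => ψ (x a)) f :=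
  MvPolynomial.hom_eval₂ f φ ψ x

/-- the line in the direction of the coordinate `l` -/
theorem coeff_one_line {n : ℕ} (i : k →+* K) (ξ : Fin n → K) (l : Fin n)
    (f : MvPolynomial (Fin n) k) :
    (eval₂ (Polynomial.C.comp i) (fun a => Polynomial.C (ξ a) +
      if a = l then Polynomial.X else 0) f).coeff 1 = eval₂ i ξ (pderiv l f) := by
  set y : Fin n → Polynomial K := fun a => Polynomial.C (ξ a) +
    if a = l then Polynomial.X else 0 with hy
  have h1 : (eval₂ (Polynomial.C.comp i) y f).coeff 1 =
      (Polynomial.derivative (eval₂ (Polynomial.C.comp i) y f)).eval 0 := by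
    rw [← Polynomial.coeff_zero_eq_eval_zero, Polynomial.coeff_derivative]
    simp
  rw [h1, chain_rule]
  have h2 : ∀ a, eval₂ (Polynomial.C.comp i) y (pderiv a f) * Polynomial.derivative (y a) =
      if a = l then eval₂ (Polynomial.C.comp i) y (pderiv l f) else 0 := by
    intro a
    rw [hy]
    by_cases ha : a = l
    · subst ha
      simp
    · simp [ha]
  rw [Finset.sum_congr rfl fun a _ => h2 a, Finset.sum_ite_eq' Finset.univ l,
    if_pos (Finset.mem_univ l)]
  have h3 := hom_ev (Polynomial.C.comp i) (Polynomial.evalRingHom (0 : K)) y (pderiv l f)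
  rw [Polynomial.coe_evalRingHom] at h3
  rw [h3]
  congr 1
  · ext a
    simp
  · funext a
    rw [hy]
    by_cases ha : a = l
    · subst ha
      simp
    · simp [ha]

/-- T3 (Smooth.lean): a smooth `K`-point of `f = 0`, `f` irreducible, `f ∤ g` -/
theorem smooth (hC : Ctx i j O st) {n : ℕ} {f g : MvPolynomial (Fin n) k} (hf : Irreducible f)
    (hfg : ¬ f ∣ g) {ξ : Fin n → K} (h0 : eval₂ i ξ f = 0) (l : Fin n)
    (h1 : eval₂ i ξ (pderiv l f) ≠ 0) : ∃ y : Fin n → K, eval₂ i y f = 0 ∧ eval₂ i y g ≠ 0 := by
  classical
  haveI := hC.inf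
  rcases n with _ | m
  · exact l.elim0
  have hF : Irreducible (El k l f) := (MulEquiv.irreducible_iff (El k l).toMulEquiv).2 hf
  have hFG : ¬ El k l f ∣ El k l g := by
    intro h
    apply hfg
    have h2 := map_dvd (El k l).symm h
    rwa [AlgEquiv.symm_apply_apply, AlgEquiv.symm_apply_apply] at h2
  have hdeg : (El k l f).natDegree ≠ 0 := by
    intro hd
    apply h1
    rw [← coeff_one_line i ξ l f]
    rw [Polynomial.natDegree_eq_zero] at hd
    obtain ⟨c, hc⟩ := hd
    have h2 : (fun a => Polynomial.C (ξ a) + if a = l then Polynomial.X else 0 :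
        Fin (m + 1) → Polynomial K) = pt0 l (Polynomial.C (ξ l) + Polynomial.X)
        (fun b => Polynomial.C (ξ (Equiv.swap 0 l b.succ))) := by
      rw [← pt0_eta l (fun a => Polynomial.C (ξ a) + if a = l then Polynomial.X else 0)]
      congr 1
      · simp
      · funext b
        have h3 : Equiv.swap 0 l b.succ ≠ l := by
          intro h
          have h4 := congrArg (Equiv.swap 0 l) h
          rw [Equiv.swap_apply_self, Equiv.swap_apply_right] at h4
          exact Fin.succ_ne_zero b h4
        simp [h3]
    rw [h2, ← eval₂_El, ← hc, Polynomial.eval₂_C]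
    have h3 : eval₂Hom (Polynomial.C.comp i) (fun b => Polynomial.C (ξ (Equiv.swap 0 l b.succ))) c =
        Polynomial.C (eval₂ i (fun b => ξ (Equiv.swap 0 l b.succ)) c) :=
      (hom_ev i Polynomial.C _ c).symm
    rw [h3, Polynomial.coeff_C]
    simp
  obtain ⟨A, B, r, hr, hAB⟩ := bez hF hdeg hFG
  obtain ⟨v, hv⟩ : ∃ v : Fin m → k, eval v r ≠ 0 := by
    by_contra hcon
    push Not at hcon
    exact hr (MvPolynomial.funext fun x => by rw [hcon x, map_zero])
  set η : Fin (m + 1) → K := pt0 l (ξ l) (fun b => i (v b)) with hη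
  set w : Fin (m + 1) → K := fun a => η a - ξ a with hw
  set P : Polynomial (Polynomial K) := eval₂ (Polynomial.C.comp (Polynomial.C.comp i))
    (fun a => Polynomial.C (Polynomial.C (ξ a) + Polynomial.X * Polynomial.C (w a)) +
      if a = l then Polynomial.X else 0) f with hP
  set rr : Polynomial K := eval₂ (Polynomial.C.comp i) (fun b =>
    Polynomial.C (ξ (Equiv.swap 0 l b.succ)) +
      Polynomial.X * Polynomial.C (w (Equiv.swap 0 l b.succ))) r with hrr
  have hPe : ∀ e : K, P.map (Polynomial.evalRingHom e) = eval₂ (Polynomial.C.comp i)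
      (fun a => Polynomial.C (ξ a + e * w a) + if a = l then Polynomial.X else 0) f := by
    intro e
    have h2 := hom_ev (Polynomial.C.comp (Polynomial.C.comp i))
      (Polynomial.mapRingHom (Polynomial.evalRingHom e))
      (fun a => Polynomial.C (Polynomial.C (ξ a) + Polynomial.X * Polynomial.C (w a)) +
      if a = l then Polynomial.X else 0) f
    rw [Polynomial.coe_mapRingHom] at h2
    rw [hP, h2]
    congr 1
    · ext a
      simp
    · funext a
      by_cases ha : a = l
      · subst ha
        simp
        ring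
      · simp [ha]
        ring
  have hrre : ∀ e : K, rr.eval e = eval₂ i (fun b => ξ (Equiv.swap 0 l b.succ) +
      e * w (Equiv.swap 0 l b.succ)) r := by
    intro e
    have h2 := hom_ev (Polynomial.C.comp i) (Polynomial.evalRingHom e) (fun b =>
      Polynomial.C (ξ (Equiv.swap 0 l b.succ)) +
      Polynomial.X * Polynomial.C (w (Equiv.swap 0 l b.succ))) r
    rw [Polynomial.coe_evalRingHom] at h2
    rw [hrr, h2]
    congr 1
    · ext a
      simp
    · funext b
      simp
      ring
  have hrr0 : rr ≠ 0 := by
    intro h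
    have h2 := hrre 1
    rw [h, Polynomial.eval_zero] at h2
    have h3 : (fun b : Fin m => ξ (Equiv.swap 0 l b.succ) + 1 * w (Equiv.swap 0 l b.succ)) =
        fun b : Fin m => i (v b) := by
      funext b
      rw [hw, hη]
      simp only
      rw [pt0_swap]
      ring
    rw [h3, eval₂_comp_eval] at h2
    exact hv ((map_eq_zero i).1 h2.symm)
  obtain ⟨e, y, hy, hre⟩ := hC.large P (by
      have h2 := hPe 0
      have h3 : (P.map (Polynomial.evalRingHom 0)).coeff 0 = (P.coeff 0).eval 0 := by
        rw [Polynomial.coeff_map]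
        rfl
      rw [← h3, h2, Polynomial.coeff_zero_eq_eval_zero, ← Polynomial.coe_evalRingHom, hom_ev]
      refine Eq.trans ?_ h0
      congr 1
      · ext a
        simp
      · funext a
        by_cases ha : a = l
        · subst ha
          simp
        · simp [ha]) (by
      have h2 := hPe 0
      have h3 : (P.map (Polynomial.evalRingHom 0)).coeff 1 = (P.coeff 1).eval 0 := by
        rw [Polynomial.coeff_map]
        rfl
      rw [← h3, h2]
      have h4 : (fun a => Polynomial.C (ξ a + 0 * w a) + if a = l then Polynomial.X else 0 :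
          Fin (m + 1) → Polynomial K) =
          fun a => Polynomial.C (ξ a) + if a = l then Polynomial.X else 0 := by
        funext a
        rw [zero_mul, add_zero]
      rw [h4, coeff_one_line]
      exact h1) rr hrr0
  set z : Fin (m + 1) → K := fun a => ξ a + e * w a + if a = l then y else 0 with hz
  have hfz : eval₂ i z f = 0 := by
    rw [← hy, hPe, ← Polynomial.coe_evalRingHom, hom_ev]
    congr 1
    · ext a
      simp
    · funext a
      rw [hz]
      by_cases ha : a = l
      · subst ha
        simp
      · simp [ha]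
  have hrz : eval₂ i (fun b => z (Equiv.swap 0 l b.succ)) r ≠ 0 := by
    rw [hrre] at hre
    have h3 : (fun b : Fin m => z (Equiv.swap 0 l b.succ)) =
        fun b : Fin m => ξ (Equiv.swap 0 l b.succ) + e * w (Equiv.swap 0 l b.succ) := by
      funext b
      have h3 : Equiv.swap 0 l b.succ ≠ l := by
        intro h
        have h4 := congrArg (Equiv.swap 0 l) h
        rw [Equiv.swap_apply_self, Equiv.swap_apply_right] at h4
        exact Fin.succ_ne_zero b h4
      rw [hz]
      simp [h3]
    rw [h3]
    exact hre
  refine ⟨z, hfz, ?_⟩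
  intro hgz
  apply hrz
  have h2 := congrArg (Polynomial.eval₂ (eval₂Hom i (fun b => z (Equiv.swap 0 l b.succ))) (z l)) hAB
  rw [Polynomial.eval₂_add, Polynomial.eval₂_mul, Polynomial.eval₂_mul, eval₂_El, eval₂_El,
    pt0_eta, hfz, hgz, mul_zero, mul_zero, add_zero, Polynomial.eval₂_C] at h2
  exact h2.symm

end

end LD90
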