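import Pool.Agent.LD90.Lin
import Pool.Agent.LD90.Cubic

/-!
# Adding linear equations
-/

namespace LD90

open MvPolynomial

section

variable {k K M : Type*} [Field k] [Field K] [Field M] {i : k →+* K} {j : k →+* M}
  {O : ValuationSubring M} {st : O →+* K}

/-- adding linear equations to a class of systems which is stable under linear substitutions -/
theorem sys_gen (j : k →+* M) (T : ∀ n, List (MvPolynomial (Fin n) k) → Prop)
    (hT : ∀ n F, T n F → ∀ (g : MvPolynomial (Fin n) k) (x : Fin n → M),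
      (∀ f ∈ F, eval₂ j x f = 0) → eval₂ j x g ≠ 0 →
      ∃ z : Fin n → k, (∀ f ∈ F, eval z f = 0) ∧ eval z g ≠ 0)
    (hsub : ∀ n F, T (n + 1) F → ∀ A : Fin (n + 1) → MvPolynomial (Fin n) k,
      (∀ a, (A a).IsHomogeneous 1) → T n (F.map (aeval A))) (N : ℕ) :
    ∀ (n : ℕ) (Λ F : List (MvPolynomial (Fin n) k)), Λ.length = N → T n F →
    (∀ f ∈ Λ, f.IsHomogeneous 1) → ∀ (g : MvPolynomial (Fin n) k) (x : Fin n → M),
      (∀ f ∈ Λ, eval₂ j x f = 0) → (∀ f ∈ F, eval₂ j x f = 0) → eval₂ j x g ≠ 0 →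
      ∃ z : Fin n → k, (∀ f ∈ Λ, eval z f = 0) ∧ (∀ f ∈ F, eval z f = 0) ∧ eval z g ≠ 0 := by
  induction N with
  | zero =>
    intro n Λ F hN hF _ g x _ h2 h3
    have h4 := List.length_eq_zero_iff.1 hN
    obtain ⟨z, hz1, hz2⟩ := hT n F hF g x h2 h3
    exact ⟨z, fun f hf => by rw [h4] at hf; exact absurd hf List.not_mem_nil, hz1, hz2⟩
  | succ N IH =>
    intro n Λ F hN hF hΛ g x h1 h2 h3
    obtain ⟨ℓ, Λ', rfl⟩ := List.exists_cons_of_length_eq_add_one hN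
    have hN' : Λ'.length = N := by simpa using hN
    by_cases hℓ : ℓ = 0
    · obtain ⟨z, hz1, hz2, hz3⟩ := IH n Λ' F hN' hF (fun f hf => hΛ f (List.mem_cons_of_mem _ hf))
        g x (fun f hf => h1 f (List.mem_cons_of_mem _ hf)) h2 h3
      refine ⟨z, fun f hf => ?_, hz2, hz3⟩
      rcases List.mem_cons.1 hf with rfl | hf
      · rw [hℓ, map_zero]
      · exact hz1 f hf
    rcases n with _ | m
    · have hx : x = fun a => j ((fun _ => 0 : Fin 0 → k) a) := Subsingleton.elim _ _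
      rw [hx] at h1 h2 h3
      exact ⟨fun _ => 0, fun f hf => (eval_of_eval₂ j).1 (h1 f hf),
        fun f hf => (eval_of_eval₂ j).1 (h2 f hf), fun h => h3 ((eval_of_eval₂ j).2 h)⟩
    obtain ⟨A, u, hA, hu, hw⟩ := lin_elim j (hΛ ℓ List.mem_cons_self) hℓ (h1 ℓ List.mem_cons_self)
    have hx : x = fun a => eval₂ j u (A a) := funext hu
    obtain ⟨w, hw1, hw2, hw3⟩ := IH m (Λ'.map (aeval A)) (F.map (aeval A)) (by simpa using hN')
      (hsub m F hF A hA) (by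
        intro f hf
        obtain ⟨f', hf', rfl⟩ := List.mem_map.1 hf
        exact hom_aeval (hΛ f' (List.mem_cons_of_mem _ hf')) hA) (aeval A g) u (by
        intro f hf
        obtain ⟨f', hf', rfl⟩ := List.mem_map.1 hf
        rw [eval₂_aeval, ← hx]
        exact h1 f' (List.mem_cons_of_mem _ hf')) (by
        intro f hf
        obtain ⟨f', hf', rfl⟩ := List.mem_map.1 hf
        rw [eval₂_aeval, ← hx]
        exact h2 f' hf') (by
        rw [eval₂_aeval, ← hx]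
        exact h3)
    refine ⟨fun a => eval w (A a), fun f hf => ?_, fun f hf => ?_, ?_⟩
    · rcases List.mem_cons.1 hf with rfl | hf
      · exact hw w
      · rw [← eval_aeval]
        exact hw1 _ (List.mem_map_of_mem hf)
    · rw [← eval_aeval]
      exact hw2 _ (List.mem_map_of_mem hf)
    · rw [← eval_aeval]
      exact hw3

/-- one form of degree at most `3`, or two quadratic forms -/
def Good {n : ℕ} (F : List (MvPolynomial (Fin n) k)) : Prop :=
  (∃ d ≤ 3, ∃ f : MvPolynomial (Fin n) k, f.IsHomogeneous d ∧ F = [f]) ∨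
    ∃ f1 f2 : MvPolynomial (Fin n) k, f1.IsHomogeneous 2 ∧ f2.IsHomogeneous 2 ∧ F = [f1, f2]

/-- the homogeneous transfer theorem, from the cases without linear equations -/
theorem sys_of (j : k →+* M)
    (hcub : ∀ (n d : ℕ), d ≤ 3 → ∀ (f g : MvPolynomial (Fin n) k), f.IsHomogeneous d →
      ∀ (x : Fin n → M), eval₂ j x f = 0 → eval₂ j x g ≠ 0 →
      ∃ z : Fin n → k, eval z f = 0 ∧ eval z g ≠ 0)
    (hquad : ∀ (n : ℕ) (f1 f2 g : MvPolynomial (Fin n) k), f1.IsHomogeneous 2 →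
      f2.IsHomogeneous 2 → ∀ x : Fin n → M, eval₂ j x f1 = 0 → eval₂ j x f2 = 0 →
      eval₂ j x g ≠ 0 → ∃ z : Fin n → k, eval z f1 = 0 ∧ eval z f2 = 0 ∧ eval z g ≠ 0)
    {n : ℕ} (Λ F : List (MvPolynomial (Fin n) k))
    (hΛ : ∀ f ∈ Λ, f.IsHomogeneous 1) (hF : Good F) (g : MvPolynomial (Fin n) k) (x : Fin n → M)
    (h1 : ∀ f ∈ Λ, eval₂ j x f = 0) (h2 : ∀ f ∈ F, eval₂ j x f = 0) (h3 : eval₂ j x g ≠ 0) :
    ∃ z : Fin n → k, (∀ f ∈ Λ, eval z f = 0) ∧ (∀ f ∈ F, eval z f = 0) ∧ eval z g ≠ 0 := by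
  refine sys_gen j (fun n F => Good F) ?_ ?_ Λ.length n Λ F rfl hF hΛ g x h1 h2 h3
  · rintro n F (⟨d, hd, f, hf, rfl⟩ | ⟨f1, f2, hf1, hf2, rfl⟩) g x h0 h1
    · obtain ⟨z, hz1, hz2⟩ := hcub n d hd f g hf x (h0 f (by simp)) h1
      exact ⟨z, by simpa using hz1, hz2⟩
    · obtain ⟨z, hz1, hz2, hz3⟩ := hquad n f1 f2 g hf1 hf2 x (h0 f1 (by simp)) (h0 f2 (by simp)) h1
      exact ⟨z, by simpa using ⟨hz1, hz2⟩, hz3⟩
  · rintro n F (⟨d, hd, f, hf, rfl⟩ | ⟨f1, f2, hf1, hf2, rfl⟩) A hA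
    · exact Or.inl ⟨d, hd, aeval A f, hom_aeval hf hA, rfl⟩
    · exact Or.inr ⟨aeval A f1, aeval A f2, hom_aeval hf1 hA, hom_aeval hf2 hA, rfl⟩

end

end LD90
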