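import Pool.Agent.LD90.Final
import Pool.Agent.LD90.Homog
import Pool.Agent.LD90.Smooth
import Pool.Agent.LD90.Sys
import Pool.Agent.LD90.Quad

/-!
# Systems of low degree over `F_p((t))`
-/

set_option maxSynthPendingDepth 10

namespace LD90

theorem low_degree (p : ℕ) [Fact p.Prime] :
    ∃ D : List PL × PL → Bool, Computable D ∧
      ∀ a : List PL × PL, (a.1.map fun f => deg f - 1).sum ≤ 2 →
        (D a = true ↔ Sol (HahnSeries.single 1 1 : LaurentSeries (ZMod p)) a) := by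
  refine low_degree_of (fun {k K M} _ _ _ {i j O st} hC t a ha h => ?_) p
  have hcub : ∀ (n d : ℕ), d ≤ 3 → ∀ (f g : MvPolynomial (Fin n) k), f.IsHomogeneous d →
      ∀ (x : Fin n → M), MvPolynomial.eval₂ j x f = 0 → MvPolynomial.eval₂ j x g ≠ 0 →
      ∃ z : Fin n → k, MvPolynomial.eval z f = 0 ∧ MvPolynomial.eval z g ≠ 0 :=
    fun n d hd f g hf x h0 h1 => cubic_of hC
      (fun n f g hf hfg ξ h0 l h1 => smooth hC hf hfg h0 l h1) n d hd f g hf x h0 h1
  refine sol_of_sys j (fun n Λ F hΛ hF g x h1 h2 h3 => ?_) t a ha h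
  exact sys_of j hcub (fun n f1 f2 g h1 h2 x h3 h4 h5 => quad2_of hC hcub n f1 f2 g h1 h2 x h3 h4 h5)
    Λ F hΛ hF g x h1 h2 h3

end LD90
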