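import Pool.Agent.LD90.Tools

/-!
# Elimination of a linear form
-/

namespace LD90

open MvPolynomial

section sub

variable {m n : ℕ} {k A : Type*} [Field k] [CommRing A]

theorem eval₂_aeval (φ : k →+* A) (u : Fin n → A) (B : Fin m → MvPolynomial (Fin n) k)
    (f : MvPolynomial (Fin m) k) :
    eval₂ φ u (aeval B f) = eval₂ φ (fun a => eval₂ φ u (B a)) f := by
  have h : (eval₂Hom φ u).comp ((aeval B : MvPolynomial (Fin m) k →ₐ[k]
      MvPolynomial (Fin n) k) : MvPolynomial (Fin m) k →+* MvPolynomial (Fin n) k) =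
      eval₂Hom φ (fun a => eval₂ φ u (B a)) := by
    apply MvPolynomial.ringHom_ext
    · intro r
      simp
    · intro a
      simp
  exact RingHom.congr_fun h f

theorem eval_aeval (w : Fin n → k) (B : Fin m → MvPolynomial (Fin n) k)
    (f : MvPolynomial (Fin m) k) :
    eval w (aeval B f) = eval (fun a => eval w (B a)) f := by
  have h := eval₂_aeval (RingHom.id k) w B f
  simp only [MvPolynomial.eval₂_id] at h
  exact h

theorem hom_aeval {d : ℕ} {f : MvPolynomial (Fin m) k} (hf : f.IsHomogeneous d)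
    {B : Fin m → MvPolynomial (Fin n) k} (hB : ∀ a, (B a).IsHomogeneous 1) :
    (aeval B f).IsHomogeneous d := by
  have h := IsHomogeneous.aeval hf (g := B) (n := 1) hB
  rwa [one_mul] at h

end sub

theorem lin_form {n : ℕ} {k : Type*} [Field k] {ℓ : MvPolynomial (Fin n) k}
    (hℓ : ℓ.IsHomogeneous 1) : ∃ q : Fin n → k, ℓ = ∑ a, X a * C (q a) := by
  have hE := hℓ.sum_X_mul_pderiv
  rw [one_smul] at hE
  have hq : ∀ a, ∃ q : k, pderiv a ℓ = C q := by
    intro a
    have h1 : (pderiv a ℓ).IsHomogeneous 0 := hℓ.pderiv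
    rw [← totalDegree_zero_iff_isHomogeneous] at h1
    exact ⟨_, totalDegree_eq_zero_iff_eq_C.1 h1⟩
  choose q hq using hq
  refine ⟨q, ?_⟩
  rw [← hE]
  simp only [hq]

/-- elimination of a linear form -/
theorem lin_elim {k M : Type*} [Field k] [Field M] (j : k →+* M) {n : ℕ}
    {ℓ : MvPolynomial (Fin (n + 1)) k} (hℓ : ℓ.IsHomogeneous 1) (h0 : ℓ ≠ 0) {x : Fin (n + 1) → M}
    (hx : eval₂ j x ℓ = 0) :
    ∃ (A : Fin (n + 1) → MvPolynomial (Fin n) k) (u : Fin n → M), (∀ a, (A a).IsHomogeneous 1) ∧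
      (∀ a, x a = eval₂ j u (A a)) ∧ ∀ w : Fin n → k, eval (fun a => eval w (A a)) ℓ = 0 := by
  classical
  obtain ⟨q, hq⟩ := lin_form hℓ
  obtain ⟨b, hb⟩ : ∃ b, q b ≠ 0 := by
    by_contra hcon
    push Not at hcon
    apply h0
    rw [hq]
    exact Finset.sum_eq_zero fun a _ => by rw [hcon a, C_0, mul_zero]
  have hjb : j (q b) ≠ 0 := (map_ne_zero j).2 hb
  rw [hq, eval₂_sum, Fin.sum_univ_succAbove _ b] at hx
  simp only [eval₂_mul, eval₂_X, eval₂_C] at hx
  let B : MvPolynomial (Fin n) k := -∑ c, C (q (b.succAbove c) / q b) * X c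
  refine ⟨b.insertNth B X, fun c => x (b.succAbove c), ?_, ?_, ?_⟩
  · rw [Fin.forall_iff_succAbove b]
    refine ⟨?_, fun c => ?_⟩
    · rw [Fin.insertNth_apply_same]
      exact (IsHomogeneous.sum _ _ 1 fun c _ => isHomogeneous_C_mul_X _ _).neg
    · rw [Fin.insertNth_apply_succAbove]
      exact isHomogeneous_X k c
  · rw [Fin.forall_iff_succAbove b]
    refine ⟨?_, fun c => ?_⟩
    · rw [Fin.insertNth_apply_same]
      show x b = eval₂ j _ (-∑ c, C (q (b.succAbove c) / q b) * X c)
      rw [eval₂_neg, eval₂_sum]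
      simp only [eval₂_mul, eval₂_X, eval₂_C]
      have h1 : ∑ c, j (q (b.succAbove c) / q b) * x (b.succAbove c) =
          (∑ c, x (b.succAbove c) * j (q (b.succAbove c))) / j (q b) := by
        rw [Finset.sum_div]
        refine Finset.sum_congr rfl fun c _ => ?_
        rw [map_div₀]
        ring
      rw [h1, eq_comm, neg_eq_iff_eq_neg, div_eq_iff hjb]
      linear_combination hx
    · rw [Fin.insertNth_apply_succAbove, eval₂_X]
  · intro w
    rw [hq, map_sum, Fin.sum_univ_succAbove _ b]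
    simp only [map_mul, eval_X, eval_C, Fin.insertNth_apply_same, Fin.insertNth_apply_succAbove]
    show eval w (-∑ c, C (q (b.succAbove c) / q b) * X c) * q b + _ = 0
    rw [map_neg, map_sum]
    simp only [map_mul, eval_X, eval_C]
    have h1 : (∑ c, q (b.succAbove c) / q b * w c) * q b = ∑ c, w c * q (b.succAbove c) := by
      rw [Finset.sum_mul]
      refine Finset.sum_congr rfl fun c _ => ?_
      field_simp
    rw [neg_mul, h1, neg_add_cancel]

end LD90
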