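import Pool.Agent.BF80.Main

/-!
# The field of algebraic elements is existentially closed in the field of Laurent series
-/

set_option maxSynthPendingDepth 10
set_option linter.unusedSectionVars false
open Polynomial Filter
namespace LD90
open FT80 BF80

variable {p : ℕ} [Fact p.Prime]

section lift
variable {M : Type} [Field M] {σ : P1 p →+* M}

/-- elements algebraic over a lifted ring are finite -/
theorem mem_OC_of_alg {A : Type*} [CommRing A] [IsDomain A] (hM : Mdl p σ)
    {st : hM.OC →+* KK p} (hst : CI.StD hM st) (φ : A →+* hM.OC)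
    (hφ : ∀ a, a ≠ 0 → st (φ a) ≠ 0) {z : M}
    (hz : BF80.Alg1 (hM.OC.subtype.comp φ) z) : z ∈ hM.OC := by
  obtain ⟨q, hq, hqz⟩ := hz
  have hlc : st (φ q.leadingCoeff) ≠ 0 := hφ _ (leadingCoeff_ne_zero.2 hq)
  obtain ⟨hinv, -⟩ := CI.st_inv hM hst _ hlc
  have hφq : (q.map φ).leadingCoeff = φ q.leadingCoeff :=
    leadingCoeff_map_of_leadingCoeff_ne_zero φ fun h => hlc (by rw [h, map_zero])
  have hroot : aeval z (q.map φ) = 0 := by
    rw [aeval_def, eval₂_map]
    exact hqz
  have h2 := isIntegral_leadingCoeff_smul (q.map φ) z hroot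
  rw [hφq] at h2
  have h3 := CI.mem_OC_of_integral hM h2
  have h4 : z = ((φ q.leadingCoeff : hM.OC) : M)⁻¹ * ((φ q.leadingCoeff) • z) := by
    rw [Algebra.smul_def, ← mul_assoc]
    have h5 : (algebraMap hM.OC M (φ q.leadingCoeff)) = ((φ q.leadingCoeff : hM.OC) : M) := rfl
    rw [h5, inv_mul_cancel₀, one_mul]
    intro h6
    apply hlc
    have h7 : φ q.leadingCoeff = 0 := Subtype.ext h6
    rw [h7, map_zero]
  rw [h4]
  exact mul_mem hinv h3

/-- lifting of simple roots -/
theorem lift_simple {A : Type*} [CommRing A] (hM : Mdl p σ)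
    {st : hM.OC →+* KK p} (hst : CI.StD hM st) (hsurj : Function.Surjective st)
    (φ : A →+* hM.OC) (P : Polynomial A) (ζ : KK p)
    (h0 : P.eval₂ (st.comp φ) ζ = 0) (h1 : (derivative P).eval₂ (st.comp φ) ζ ≠ 0) :
    ∃ z : hM.OC, P.eval₂ φ z = 0 ∧ st z = ζ := by
  obtain ⟨y₀, hy₀⟩ := hsurj ζ
  set F : Polynomial hM.OC := taylor y₀ (P.map φ) with hF
  have e0 : st (F.coeff 0) = 0 := by
    rw [hF, taylor_coeff_zero, eval_map, Polynomial.hom_eval₂, hy₀]
    exact h0
  have e1 : st (F.coeff 1) ≠ 0 := by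
    rw [hF, taylor_coeff_one, derivative_map, eval_map, Polynomial.hom_eval₂, hy₀]
    exact h1
  have hle : ∀ x : hM.OC, hM.vc (x : M) ≤ 1 := fun x => hM.vc_le_one.2 x.2
  obtain ⟨y, hy1, hy2⟩ := Mdl.hens_of_val hM hM.vc
    (fun x hx => hM.vc_le_one.2 (hM.OC_of_VO hx)) hM.vc_t (F.map hM.OC.subtype)
    (fun i => by rw [coeff_map]; exact hle _)
    (by
      rw [← coeff_zero_eq_eval_zero, coeff_map]
      exact (hst.2.2 _).1 e0)
    (by
      rw [coeff_map]
      exact le_antisymm (hle _) (not_lt.1 fun h => e1 ((hst.2.2 _).2 h)))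
  have hyO : y ∈ hM.OC := hM.vc_le_one.1 hy1.le
  refine ⟨⟨y, hyO⟩ + y₀, ?_, ?_⟩
  · rw [← eval_map, ← taylor_eval, ← hF]
    apply Subtype.ext
    have h2 := Polynomial.hom_eval₂ F (RingHom.id _) hM.OC.subtype ⟨y, hyO⟩
    rw [RingHom.comp_id] at h2
    rw [eval_map] at hy2
    exact h2.trans hy2
  · rw [map_add, hy₀]
    have h3 : st ⟨y, hyO⟩ = 0 := (hst.2.2 _).2 hy1
    rw [h3, zero_add]

end lift

section surj

/-- the standard part map on the ultrapower is onto -/
theorem stU_surj (hU : Mdl p (CI.sigU p)) {st : hU.OC →+* KK p} (hst : CI.StD hU st) :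
    Function.Surjective st := by
  intro ζ
  obtain ⟨n, ξ, hξ⟩ := exists_scale ζ
  obtain ⟨s, -, hs⟩ := CI.exists_test_element ξ
  obtain ⟨h, h1⟩ := hs hU st hst
  let ti : hU.OC := ⟨(CI.sigU p X)⁻¹, CI.tinv_mem_OC hU⟩
  have hti : CI.sigC hU hst X * ti = 1 := Subtype.ext (mul_inv_cancel₀ (CI.t_ne_zero hU))
  have h2 := congrArg st hti
  rw [map_mul, map_one, CI.st_sigC] at h2
  refine ⟨⟨CI.SS s, h⟩ * ti ^ n, ?_⟩
  rw [map_mul, map_pow, h1, ← hξ]
  have h3 : tauK p X = iK p PowerSeries.X := by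
    show iK p (tau p X) = _
    rw [tau_X]
  rw [mul_assoc, ← mul_pow, ← h3, h2, one_pow, mul_one]

end surj

section sepgen

/-- finitely generated extensions are separably generated -/
theorem exists_sepgen {M : Type} [Field M] (σ : P1 p →+* M) (τ : M →+* KK p)
    (hτ : ∀ f, τ (σ f) = tauK p f) (S : Finset M) :
    ∃ (E : Type) (_ : Field E) (j : E →+* M) (s : Finset E)
      (ρ : MvPolynomial s (P1 p) →+* E), (∀ x ∈ S, ∃ y, j y = x) ∧
      (∀ f, j (ρ (MvPolynomial.C f)) = σ f) ∧ Function.Injective ρ ∧ ∀ z, CI.Simp ρ z := by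
  classical
  have hp : p.Prime := Fact.out
  have hσ : Function.Injective σ := by
    intro a b h
    apply tauK_inj' p
    rw [← hτ, ← hτ, h]
  letI : Algebra (P1 p) M := σ.toAlgebra
  letI : Algebra (FractionRing (P1 p)) M :=
    (IsFractionRing.lift (K := FractionRing (P1 p)) hσ).toAlgebra
  haveI : IsScalarTower (P1 p) (FractionRing (P1 p)) M := by
    refine IsScalarTower.of_algebraMap_eq (fun r => ?_)
    exact (IsFractionRing.lift_algebraMap hσ r).symm
  let L := IntermediateField.adjoin (FractionRing (P1 p)) (S : Set M)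
  haveI hfin : Algebra.EssFiniteType (FractionRing (P1 p)) L :=
    IntermediateField.essFiniteType_iff.2 (IntermediateField.fg_adjoin_finset S)
  haveI hcp : CharP (FractionRing (P1 p)) p := charP_of_injective_ringHom
    (f := (algebraMap (P1 p) (FractionRing (P1 p))).comp (C : ZMod p →+* P1 p))
    (RingHom.injective _) p
  haveI hec : ExpChar (FractionRing (P1 p)) p := ExpChar.prime hp
  have hmap : ∀ f : P1 p, ((algebraMap (P1 p) L f : L) : M) = σ f := by
    intro f
    rfl
  have hH := fun s => CI.maclane (p := p) (L := L) (τ.comp (algebraMap L M)) (by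
    intro f
    rw [← hτ f, ← IsScalarTower.algebraMap_apply]
    rfl) s
  obtain ⟨s, hs, hsep⟩ :=
    exists_isTranscendenceBasis_and_isSeparable_of_linearIndepOn_pow_of_essFiniteType p hp hH
  let ρ : MvPolynomial s (P1 p) →+* L :=
    MvPolynomial.eval₂Hom (algebraMap (P1 p) L) (fun i => (i : L))
  have hρ : Function.Injective ρ := by
    have h1 : AlgebraicIndependent (P1 p) (fun i : s => (i : L)) :=
      hs.1.restrictScalars (IsFractionRing.injective (P1 p) (FractionRing (P1 p)))
    exact h1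
  have hfrac : ∀ e ∈ IntermediateField.adjoin (FractionRing (P1 p)) (s : Set L),
      ∃ a b : MvPolynomial s (P1 p), ρ b ≠ 0 ∧ ρ b * e = ρ a := by
    intro e he
    induction he using IntermediateField.adjoin_induction with
    | mem x hx =>
      refine ⟨MvPolynomial.X ⟨x, hx⟩, 1, ?_, ?_⟩
      · rw [map_one]; exact one_ne_zero
      · rw [map_one, one_mul]
        simp [ρ]
    | algebraMap c =>
      obtain ⟨a, b, hb, rfl⟩ := IsFractionRing.div_surjective (A := P1 p) c
      have hb0 : algebraMap (P1 p) L b ≠ 0 := by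
        intro h
        apply nonZeroDivisors.ne_zero hb
        apply hσ
        rw [map_zero, ← hmap, h]
        rfl
      refine ⟨MvPolynomial.C a, MvPolynomial.C b, ?_, ?_⟩
      · simpa [ρ] using hb0
      · rw [map_div₀, ← IsScalarTower.algebraMap_apply, ← IsScalarTower.algebraMap_apply]
        simp only [ρ, MvPolynomial.coe_eval₂Hom, MvPolynomial.eval₂_C]
        rw [mul_div_cancel₀ _ hb0]
    | add x y _ _ hx hy =>
      obtain ⟨a, b, hb, h1⟩ := hx
      obtain ⟨c, d, hd, h2⟩ := hy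
      refine ⟨a * d + c * b, b * d, ?_, ?_⟩
      · rw [map_mul]; exact mul_ne_zero hb hd
      · rw [map_mul, map_add, map_mul, map_mul, ← h1, ← h2]; ring
    | inv x _ hx =>
      obtain ⟨a, b, hb, h1⟩ := hx
      by_cases hx0 : x = 0
      · refine ⟨0, 1, ?_, ?_⟩
        · rw [map_one]; exact one_ne_zero
        · rw [hx0, inv_zero, mul_zero, map_zero]
      · refine ⟨b, a, ?_, ?_⟩
        · rw [← h1]; exact mul_ne_zero hb hx0
        · rw [← h1, mul_assoc, mul_inv_cancel₀ hx0, mul_one]
    | mul x y _ _ hx hy =>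
      obtain ⟨a, b, hb, h1⟩ := hx
      obtain ⟨c, d, hd, h2⟩ := hy
      refine ⟨a * c, b * d, ?_, ?_⟩
      · rw [map_mul]; exact mul_ne_zero hb hd
      · rw [map_mul, map_mul, ← h1, ← h2]; ring
  refine ⟨L, inferInstance, algebraMap L M, s, ρ, ?_, ?_, hρ, ?_⟩
  · intro x hx
    exact ⟨⟨x, IntermediateField.subset_adjoin _ _ hx⟩, rfl⟩
  · intro f
    rw [← hmap f]
    simp only [ρ, MvPolynomial.coe_eval₂Hom, MvPolynomial.eval₂_C]
    rfl
  · intro z
    have hz : IsSeparable (IntermediateField.adjoin (FractionRing (P1 p)) (s : Set L)) z :=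
      Algebra.IsSeparable.isSeparable _ z
    refine CI.simp_of_rat ρ z ((minpoly (IntermediateField.adjoin (FractionRing (P1 p))
      (s : Set L)) z).map (algebraMap _ L)) ?_ ?_ ?_
    · intro i
      rw [coeff_map]
      exact hfrac _ (SetLike.coe_mem _)
    · rw [eval_map]
      exact minpoly.aeval _ _
    · rw [derivative_map, eval_map]
      exact hz.aeval_derivative_ne_zero (minpoly.aeval _ _)

end sepgen

section lifthom

/-- separably generated fields lift to the ultrapower -/
theorem exists_lift {E : Type} [Field E] (f : E →+* KK p) (s : Finset E)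
    (ρ : MvPolynomial s (P1 p) →+* E) (hρC : ∀ g, f (ρ (MvPolynomial.C g)) = tauK p g)
    (hρ : Function.Injective ρ) (hsimp : ∀ z, CI.Simp ρ z) (hU : Mdl p (CI.sigU p))
    {st : hU.OC →+* KK p} (hst : CI.StD hU st) :
    ∃ ι : E →+* hU.OC, (∀ z, st (ι z) = f z) ∧
      ∀ g, ι (ρ (MvPolynomial.C g)) = CI.sigC hU hst g := by
  have hsurj := stU_surj hU hst
  choose u hu using fun i : s => hsurj (f (ρ (MvPolynomial.X i)))
  let φ : MvPolynomial s (P1 p) →+* hU.OC := MvPolynomial.eval₂Hom (CI.sigC hU hst) u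
  have hφ : st.comp φ = f.comp ρ := by
    refine MvPolynomial.ringHom_ext (fun a => ?_) (fun i => ?_)
    · rw [RingHom.comp_apply, RingHom.comp_apply, hρC]
      simp only [φ, MvPolynomial.coe_eval₂Hom, MvPolynomial.eval₂_C]
      exact CI.st_sigC hU hst a
    · rw [RingHom.comp_apply, RingHom.comp_apply, ← hu]
      simp only [φ, MvPolynomial.coe_eval₂Hom, MvPolynomial.eval₂_X]
  have hφ0 : ∀ a, a ≠ 0 → st (φ a) ≠ 0 := by
    intro a ha h
    have h1 := RingHom.congr_fun hφ a
    rw [RingHom.comp_apply, RingHom.comp_apply, h] at h1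
    exact ha (hρ (((map_eq_zero f).1 h1.symm).trans (map_zero ρ).symm))
  let CU := algField (hU.OC.subtype.comp φ)
  have hCU : ∀ z, BF80.Alg1 (hU.OC.subtype.comp φ) z → z ∈ hU.OC := fun z hz =>
    mem_OC_of_alg hU hst φ hφ0 hz
  let iU : CU →+* hU.OC := CU.subtype.codRestrict hU.OC.toSubring (fun z => hCU z z.2)
  have hinj : Function.Injective (st.comp iU) := (st.comp iU).injective
  obtain ⟨ι0, hι0⟩ := CI.exists_lift_hom f (st.comp iU) hinj (by
    intro z
    obtain ⟨P, h0, h1⟩ := hsimp z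
    obtain ⟨z', hz', hz2⟩ := lift_simple hU hst hsurj φ P (f z)
      (by
        rw [hφ, ← Polynomial.hom_eval₂]
        have h2 : P.eval₂ ρ z = 0 := h0
        rw [h2, map_zero])
      (by
        rw [hφ, ← Polynomial.hom_eval₂]
        exact fun h => h1 ((map_eq_zero f).1 h))
    have hP : P ≠ 0 := by
      rintro rfl
      simp at h1
    refine ⟨⟨z', P, hP, ?_⟩, hz2⟩
    have h2 := Polynomial.hom_eval₂ P φ hU.OC.subtype z'
    rw [hz', map_zero] at h2
    exact h2.symm)
  refine ⟨iU.comp ι0, hι0, fun g => ?_⟩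
  have hφC : φ (MvPolynomial.C g) = CI.sigC hU hst g := by
    simp only [φ, MvPolynomial.coe_eval₂Hom, MvPolynomial.eval₂_C]
  have hm : hU.OC.subtype.comp φ (MvPolynomial.C g) ∈ CU := CI.map_mem_algField _ _
  have h1 : ι0 (ρ (MvPolynomial.C g)) = ⟨_, hm⟩ := by
    apply hinj
    rw [hι0, hρC]
    have h2 : iU ⟨_, hm⟩ = φ (MvPolynomial.C g) := rfl
    rw [RingHom.comp_apply, h2, hφC, CI.st_sigC]
  have h2 : iU ⟨_, hm⟩ = φ (MvPolynomial.C g) := rfl
  rw [RingHom.comp_apply, h1, h2, hφC]

end lifthom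

/-- a polynomial over `k0` with coefficients in the image of `E` comes from `E` -/
theorem exists_poly {n : ℕ} {E U : Type} [Field E] [Field U] (j : E →+* KK p) (ι : E →+* U)
    (d : k0 p →+* U) (hcoef : ∀ (a : k0 p) (e : E), j e = (a : KK p) → ι e = d a)
    (f : MvPolynomial (Fin n) (k0 p))
    (hf : ∀ m, ∃ e, j e = ((f.coeff m : k0 p) : KK p)) :
    ∃ F : MvPolynomial (Fin n) E, F.map j = f.map (k0 p).subtype ∧ F.map ι = f.map d := by
  classical
  choose e he using hf
  refine ⟨∑ m ∈ f.support, MvPolynomial.monomial m (e m), ?_, ?_⟩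
  · conv_rhs => rw [f.as_sum]
    rw [map_sum, map_sum]
    refine Finset.sum_congr rfl fun m _ => ?_
    rw [MvPolynomial.map_monomial, MvPolynomial.map_monomial, he]
    rfl
  · conv_rhs => rw [f.as_sum]
    rw [map_sum, map_sum]
    refine Finset.sum_congr rfl fun m _ => ?_
    rw [MvPolynomial.map_monomial, MvPolynomial.map_monomial, hcoef _ _ (he m)]

/-- `k0` is existentially closed in `F_p((t))` -/
theorem ec (p : ℕ) [Fact p.Prime] {n : ℕ} (y : Fin n → KK p)
    (S : Finset (MvPolynomial (Fin n) (k0 p)))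
    (hS : ∀ f ∈ S, MvPolynomial.eval₂ (k0 p).subtype y f = 0) (g : MvPolynomial (Fin n) (k0 p))
    (hg : MvPolynomial.eval₂ (k0 p).subtype y g ≠ 0) :
    ∃ z : Fin n → k0 p, (∀ f ∈ S, MvPolynomial.eval z f = 0) ∧ MvPolynomial.eval z g ≠ 0 := by
  classical
  have hU : Mdl p (CI.sigU p) := mdl_up mdl_k0
  obtain ⟨st, hst⟩ := hU.exists_st
  let T : Finset (KK p) := Finset.univ.image y ∪ insert 0
    ((insert g S).biUnion fun f => f.support.image fun m => ((f.coeff m : k0 p) : KK p))
  obtain ⟨E, iE, j, s, ρ, hT, hC, hρ, hsimp⟩ :=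
    exists_sepgen (tauK p) (RingHom.id (KK p)) (fun _ => rfl) T
  obtain ⟨ι, hι, hιC0⟩ := exists_lift j s ρ hC hρ hsimp hU hst
  let ιU : E →+* UP (k0 p) := hU.OC.subtype.comp ι
  have hιU : ∀ e, ιU e = ((ι e : hU.OC) : UP (k0 p)) := fun e => rfl
  -- algebraic elements of the ultrapower are determined by their standard part
  have hdO : ∀ a : k0 p, BF80.Alg1 (CI.sigU p) (diag (k0 p) a) := by
    intro a
    obtain ⟨q, hq, hqa⟩ := a.2
    refine ⟨q, hq, ?_⟩
    have h1 : ev1 (sig0 p) a q = 0 := by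
      apply Subtype.ext
      have h2 := Polynomial.hom_eval₂ q (sig0 p) (k0 p).subtype a
      exact h2.trans hqa
    have h3 := Polynomial.hom_eval₂ q (sig0 p) (diag (k0 p)) a
    have h4 : q.eval₂ (sig0 p) a = 0 := h1
    rw [h4, map_zero] at h3
    exact h3.symm
  have hdOC : ∀ a : k0 p, diag (k0 p) a ∈ hU.OC := fun a => hU.alg_mem_OC (hdO a)
  let δ : k0 p →+* hU.OC := (diag (k0 p)).codRestrict hU.OC.toSubring hdOC
  have hδ : ∀ a : k0 p, st (δ a) = (a : KK p) := by
    intro a
    refine hom_k0_KK (st.comp δ) (fun f => ?_) a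
    exact (hst.1 f).choose_spec
  have hιC : ∀ f : P1 p, ιU (ρ (MvPolynomial.C f)) = CI.sigU p f := by
    intro f
    rw [hιU, hιC0]
    rfl
  have hcoef : ∀ (a : k0 p) (e : E), j e = (a : KK p) → ιU e = diag (k0 p) a := by
    intro a e hae
    by_contra hne
    have hx : ιU e - diag (k0 p) a ≠ 0 := sub_ne_zero.2 hne
    have h1 : BF80.Alg1 (CI.sigU p) (ιU e) := by
      obtain ⟨q, hq, hqa⟩ := a.2
      refine ⟨q, hq, ?_⟩
      have e1 : q.eval₂ (ρ.comp MvPolynomial.C) e = 0 := by
        apply j.injective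
        rw [Polynomial.hom_eval₂, map_zero, hae]
        have e2 : j.comp (ρ.comp MvPolynomial.C) = tauK p := RingHom.ext hC
        rw [e2]
        exact hqa
      have e3 := Polynomial.hom_eval₂ q (ρ.comp MvPolynomial.C) ιU e
      have e4 : ιU.comp (ρ.comp MvPolynomial.C) = CI.sigU p := RingHom.ext hιC
      rw [e1, map_zero, e4] at e3
      exact e3.symm
    have h2 : BF80.Alg1 (CI.sigU p) (ιU e - diag (k0 p) a) :=
      (algField (CI.sigU p)).sub_mem h1 (hdO a)
    apply hU.alg_not_inf h2 hx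
    have h3 : st (ι e - δ a) = 0 := by
      rw [map_sub, hι, hδ, hae, sub_self]
    exact (hst.2.2 _).1 h3
  have hpoly : ∀ f ∈ insert g S, ∃ F : MvPolynomial (Fin n) E,
      F.map j = f.map (k0 p).subtype ∧ F.map ιU = f.map (diag (k0 p)) := by
    intro f hf
    refine exists_poly j ιU (diag (k0 p)) hcoef f (fun m => hT _ ?_)
    by_cases hm : m ∈ f.support
    · refine Finset.mem_union_right _ (Finset.mem_insert_of_mem ?_)
      exact Finset.mem_biUnion.2 ⟨f, hf, Finset.mem_image.2 ⟨m, hm, rfl⟩⟩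
    · rw [MvPolynomial.notMem_support_iff.1 hm]
      exact Finset.mem_union_right _ (Finset.mem_insert_self _ _)
  choose yE hyE using fun i => hT (y i)
    (Finset.mem_union_left _ (Finset.mem_image_of_mem y (Finset.mem_univ i)))
  choose z hz using fun i => CI.cl_surj (ιU (yE i))
  have key : ∀ f ∈ insert g S,
      (∀ᶠ l in ((hyperfilter ℕ : Ultrafilter ℕ) : Filter ℕ),
        MvPolynomial.eval (fun i => z i l) f = 0) ↔
        MvPolynomial.eval₂ (k0 p).subtype y f = 0 := by
    intro f hf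
    obtain ⟨F, hF1, hF2⟩ := hpoly f hf
    have h1 : MvPolynomial.eval₂ (k0 p).subtype y f = j (MvPolynomial.eval yE F) := by
      rw [← MvPolynomial.eval_map, ← hF1, MvPolynomial.eval_map]
      have h2 : y = fun i => j (yE i) := funext fun i => (hyE i).symm
      rw [h2]
      have h3 := MvPolynomial.eval₂_comp_left j (RingHom.id E) yE F
      rw [RingHom.comp_id] at h3
      exact h3.symm
    have h2 : CI.cl p (fun l => MvPolynomial.eval (fun i => z i l) f) =
        ιU (MvPolynomial.eval yE F) := by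
      have h3 := MvPolynomial.eval₂_comp_left ιU (RingHom.id E) yE F
      rw [RingHom.comp_id] at h3
      have h4 : ιU (MvPolynomial.eval yE F) =
          MvPolynomial.eval₂ (diag (k0 p)) (fun i => CI.cl p (z i)) f := by
        rw [← MvPolynomial.eval_map, ← hF2, MvPolynomial.eval_map]
        have h5 : (fun i => CI.cl p (z i)) = ιU ∘ yE := funext fun i => hz i
        rw [h5]
        exact h3
      rw [h4]
      have h6 : (CI.cl p).comp (Pi.ringHom fun l => MvPolynomial.eval (fun i => z i l)) =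
          MvPolynomial.eval₂Hom (diag (k0 p)) (fun i => CI.cl p (z i)) := by
        refine MvPolynomial.ringHom_ext (fun a => ?_) (fun i => ?_)
        · rw [RingHom.comp_apply, MvPolynomial.coe_eval₂Hom, MvPolynomial.eval₂_C]
          rw [CI.diag_eq_cl]
          congr 1
          funext l
          exact MvPolynomial.eval_C a
        · rw [RingHom.comp_apply, MvPolynomial.coe_eval₂Hom, MvPolynomial.eval₂_X]
          congr 1
          funext l
          exact MvPolynomial.eval_X i
      exact RingHom.congr_fun h6 f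
    rw [h1, map_eq_zero, ← CI.cl_eq_zero_iff, h2, map_eq_zero]
  have hev : ∀ᶠ l in ((hyperfilter ℕ : Ultrafilter ℕ) : Filter ℕ),
      (∀ f ∈ S, MvPolynomial.eval (fun i => z i l) f = 0) ∧
        MvPolynomial.eval (fun i => z i l) g ≠ 0 := by
    refine Filter.Eventually.and ?_ ?_
    · rw [Filter.eventually_all_finset]
      intro f hf
      exact (key f (Finset.mem_insert_of_mem hf)).2 (hS f hf)
    · rw [Ultrafilter.eventually_not]
      intro h
      exact hg ((key g (Finset.mem_insert_self _ _)).1 h)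
  obtain ⟨l, hl⟩ := hev.exists
  exact ⟨fun i => z i l, hl⟩

end LD90
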