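import Pool.Agent.BF80.MdlK
import Pool.Agent.BF80.MdlBasic0

/-!
# `F_p((t))` is a large field
-/

set_option maxSynthPendingDepth 10

open Polynomial

namespace LD90

open FT80 BF80

variable {p : ℕ} [hp : Fact p.Prime]



theorem mono_V {x : KK p} {m n : ℕ} (hmn : m ≤ n) (h : VO (tauK p X) (tauK p X ^ m * x)) :
    VO (tauK p X) (tauK p X ^ n * x) := mdl_KK.mono hmn h

theorem t_pow (n : ℕ) : tauK p X ^ n = TT p n := by
  have h := TT_nat (p := p) 1
  rw [pow_one] at h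
  have h1 : TT p ((1 : ℕ) : ℤ) = TT p 1 := by norm_num
  rw [BF80.tauK_X, ← h1, h, TT_nat, map_pow]

theorem bdd (x : KK p) : ∃ n : ℕ, VO (tauK p X) (tauK p X ^ n * x) := by
  obtain ⟨n, hn⟩ := exists_clear x
  exact ⟨n, by rw [VO_KK, t_pow]; exact hn⟩

theorem bdd_poly (q : Polynomial (KK p)) :
    ∃ n : ℕ, ∀ i, VO (tauK p X) (tauK p X ^ n * q.coeff i) := by
  choose f hf using fun i => bdd (q.coeff i)
  refine ⟨q.support.sup f, fun i => ?_⟩
  by_cases hi : i ∈ q.support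
  · exact mono_V (Finset.le_sup hi) (hf i)
  · rw [notMem_support_iff.1 hi, mul_zero]
    exact BF80.VO_zero _

theorem bdd_poly2 (P : Polynomial (Polynomial (KK p))) :
    ∃ n : ℕ, ∀ l i, VO (tauK p X) (tauK p X ^ n * (P.coeff l).coeff i) := by
  choose f hf using fun l => bdd_poly (P.coeff l)
  refine ⟨P.support.sup f, fun l i => ?_⟩
  by_cases hi : l ∈ P.support
  · exact mono_V (Finset.le_sup hi) (hf l i)
  · rw [notMem_support_iff.1 hi, coeff_zero, mul_zero]
    exact BF80.VO_zero _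

theorem V_eval {q : Polynomial (KK p)} (hq : ∀ i, VO (tauK p X) (q.coeff i)) {e : KK p}
    (he : VO (tauK p X) e) : VO (tauK p X) (q.eval e) := by
  rw [Polynomial.eval_eq_sum]
  exact (mdl_KK (p := p)).OV.sum_mem fun i _ => mdl_KK.mul _ _ (hq i) (mdl_KK.VO_pow he i)

theorem large0 {P : Polynomial (Polynomial (KK p))}
    (hP : ∀ l i, VO (tauK p X) ((P.coeff l).coeff i)) (h0 : (P.coeff 0).eval 0 = 0)
    (h1 : (P.coeff 1).eval 0 ≠ 0) {r : Polynomial (KK p)} (hr : r ≠ 0) :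
    ∃ e y : KK p, (P.map (evalRingHom e)).eval y = 0 ∧ r.eval e ≠ 0 := by
  classical
  set t := tauK p X with ht
  have ht0 : t ≠ 0 := mdl_KK.t_ne
  have hM : Mdl p (tauK p) := mdl_KK
  set c := (P.coeff 1).eval 0 with hc
  obtain ⟨μ, hμ⟩ := bdd c⁻¹
  rw [← ht] at hμ
  have hinj : Function.Injective (fun n : ℕ => t ^ n) := by
    intro a b hab
    simp only at hab
    rw [ht, t_pow, t_pow] at hab
    have h2 : (a : ℤ) = b := by
      by_contra hne
      have h3 := congrArg (fun z : KK p => z.coeff (a : ℤ)) hab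
      simp only [TT] at h3
      rw [HahnSeries.coeff_single_same, HahnSeries.coeff_single_of_ne hne] at h3
      exact one_ne_zero h3
    exact_mod_cast h2
  obtain ⟨N, hN1, hN2⟩ : ∃ N : ℕ, 2 * μ + 2 ≤ N ∧ r.eval (t ^ N) ≠ 0 := by
    by_contra hcon
    push Not at hcon
    have h2 : ((fun n : ℕ => t ^ n) '' {n | 2 * μ + 2 ≤ n}).Infinite :=
      (Set.infinite_of_not_bddAbove (fun ⟨B, hB⟩ => by
        have h3 := hB (show (B + 2 * μ + 3) ∈ {n | 2 * μ + 2 ≤ n} from by
          simp only [Set.mem_setOf_eq]; omega)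
        omega)).image hinj.injOn
    apply h2
    refine (r.roots.toFinset.finite_toSet).subset ?_
    rintro _ ⟨n, hn, rfl⟩
    simp only [Finset.mem_coe, Multiset.mem_toFinset, mem_roots hr]
    exact hcon n hn
  set e := t ^ N with he
  have heV : VO t e := hM.VO_pow hM.VO_t N
  have hb : ∀ l, VO t ((P.coeff l).eval e) := fun l => V_eval (hP l) heV
  -- constant term
  obtain ⟨q0, hq0⟩ : (X : Polynomial (KK p)) ∣ P.coeff 0 := by
    rw [Polynomial.X_dvd_iff, Polynomial.coeff_zero_eq_eval_zero]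
    exact h0
  have hq0V : VO t (q0.eval e) := by
    apply V_eval _ heV
    intro i
    have h2 := hP 0 (i + 1)
    rw [hq0, coeff_X_mul] at h2
    exact h2
  have hb0 : (P.coeff 0).eval e = e * q0.eval e := by rw [hq0]; simp
  -- linear term
  obtain ⟨q1, hq1⟩ : (X : Polynomial (KK p)) ∣ P.coeff 1 - C c := by
    rw [Polynomial.X_dvd_iff, coeff_sub, Polynomial.coeff_zero_eq_eval_zero, coeff_C_zero, hc,
      sub_self]
  have hq1V : VO t (q1.eval e) := by
    apply V_eval _ heV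
    intro i
    have h2 := hP 1 (i + 1)
    have h3 : (P.coeff 1).coeff (i + 1) = q1.coeff i := by
      rw [← coeff_X_mul q1 i, ← hq1, coeff_sub, coeff_C_succ, sub_zero]
    rw [← h3]
    exact h2
  have hb1 : (P.coeff 1).eval e = c + e * q1.eval e := by
    have h2 := congrArg (Polynomial.eval e) hq1
    rw [eval_sub, eval_C, eval_mul, eval_X] at h2
    linear_combination h2
  set z := t ^ (N - μ - 1) * (t ^ μ * c⁻¹) * q1.eval e with hz
  have hzV : VO t z := hM.mul _ _ (hM.mul _ _ (hM.VO_pow hM.VO_t _) hμ) hq1V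
  have hb1' : (P.coeff 1).eval e = c * (1 + t * z) := by
    have h2 : e = t * t ^ (N - μ - 1) * t ^ μ := by
      rw [he, ← pow_succ', ← pow_add]
      congr 1
      omega
    rw [hb1, hz]
    have h3 : c * (1 + t * (t ^ (N - μ - 1) * (t ^ μ * c⁻¹) * q1.eval e)) =
        c + (t * t ^ (N - μ - 1) * t ^ μ) * q1.eval e * (c * c⁻¹) := by ring
    rw [h3, mul_inv_cancel₀ h1, mul_one, ← h2]
  obtain ⟨hu0, huV⟩ := hM.inv_one_add hzV
  set b1 := (P.coeff 1).eval e with hb1d
  have hb1ne : b1 ≠ 0 := by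
    rw [hb1']
    exact mul_ne_zero h1 hu0
  have hb1V : VO t (t ^ μ * b1⁻¹) := by
    rw [hb1', mul_inv, ← mul_assoc]
    exact hM.mul _ _ hμ huV
  -- the rescaled polynomial
  set G := P.map (evalRingHom e) with hG
  set F := C ((t ^ (μ + 1))⁻¹ * b1⁻¹) * G.comp (C (t ^ (μ + 1)) * X) with hF
  have hFc : ∀ l, F.coeff l = (t ^ (μ + 1))⁻¹ * b1⁻¹ * ((P.coeff l).eval e * (t ^ (μ + 1)) ^ l) := by
    intro l
    rw [hF, coeff_C_mul, comp_C_mul_X_coeff, hG, coeff_map, coe_evalRingHom]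
  have htμ : t ^ (μ + 1) ≠ 0 := pow_ne_zero _ ht0
  have hF1 : F.coeff 1 = 1 := by
    rw [hFc, pow_one, ← hb1d]
    field_simp
  have hF0 : VO t (F.coeff 0 / t) := by
    have h2 : F.coeff 0 / t = t ^ (N - 2 * μ - 2) * (t ^ μ * b1⁻¹) * q0.eval e := by
      rw [hFc, hb0, pow_zero, mul_one]
      have h3 : e = t * t ^ (N - 2 * μ - 2) * t ^ μ * t ^ (μ + 1) := by
        rw [he, ← pow_succ', ← pow_add, ← pow_add]
        congr 1
        omega
      rw [h3]
      field_simp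
    rw [h2]
    exact hM.mul _ _ (hM.mul _ _ (hM.VO_pow hM.VO_t _) hb1V) hq0V
  have hFV : ∀ l, VO t (F.coeff l) := by
    intro l
    rcases l with _ | _ | l
    · have h2 : F.coeff 0 = t * (F.coeff 0 / t) := by field_simp
      rw [h2]
      exact hM.mul _ _ hM.VO_t hF0
    · rw [zero_add, hF1]
      exact hM.one
    · have h2 : F.coeff (l + 1 + 1) =
          t * t ^ ((μ + 1) * l) * (t ^ μ * b1⁻¹) * (P.coeff (l + 1 + 1)).eval e := by
        rw [hFc]
        have h3 : (t ^ (μ + 1)) ^ (l + 1 + 1) =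
            t ^ (μ + 1) * (t * t ^ ((μ + 1) * l) * t ^ μ) := by
          rw [← pow_succ', ← pow_add, ← pow_add, ← pow_mul]
          congr 1
          ring
        rw [h3]
        field_simp
      rw [h2]
      exact hM.mul _ _ (hM.mul _ _ (hM.mul _ _ hM.VO_t (hM.VO_pow hM.VO_t _)) hb1V) (hb _)
  obtain ⟨y, -, hy⟩ := hM.hensel F hFV hF0 (by rw [hF1]; exact one_ne_zero)
    (by rw [hF1, inv_one]; exact hM.one)
  refine ⟨e, t ^ (μ + 1) * (t * y), ?_, hN2⟩
  rw [hF, eval_mul, eval_C, eval_comp, eval_mul, eval_C, eval_X, mul_eq_zero] at hy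
  exact hy.resolve_left (mul_ne_zero (inv_ne_zero htμ) (inv_ne_zero hb1ne))

/-- `F_p((t))` is large: a simple zero spreads along a curve -/
theorem large {P : Polynomial (Polynomial (KK p))} (h0 : (P.coeff 0).eval 0 = 0)
    (h1 : (P.coeff 1).eval 0 ≠ 0) {r : Polynomial (KK p)} (hr : r ≠ 0) :
    ∃ e y : KK p, (P.map (evalRingHom e)).eval y = 0 ∧ r.eval e ≠ 0 := by
  obtain ⟨m, hm⟩ := bdd_poly2 P
  have ht0 : tauK p X ^ m ≠ 0 := pow_ne_zero _ mdl_KK.t_ne
  obtain ⟨e, y, h2, h3⟩ := large0 (P := C (C (tauK p X ^ m)) * P)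
    (fun l i => by rw [coeff_C_mul, coeff_C_mul]; exact hm l i)
    (by rw [coeff_C_mul, eval_mul, h0, mul_zero])
    (by
      rw [coeff_C_mul, eval_mul, eval_C]
      exact mul_ne_zero ht0 h1) hr
  refine ⟨e, y, ?_, h3⟩
  rw [Polynomial.map_mul, eval_mul, map_C, eval_C, coe_evalRingHom, eval_C, mul_eq_zero] at h2
  exact h2.resolve_left ht0

end LD90
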