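import Pool.Agent.LD90.Ctx
import Pool.Agent.LD90.EC
import Pool.Agent.LD90.Large

/-!
# The context of a model
-/

set_option maxSynthPendingDepth 10

namespace LD90

open MvPolynomial FT80 BF80

theorem infinite_k0 (p : ℕ) [Fact p.Prime] : Infinite (k0 p) := by
  have h : Function.Injective (sig0 p) := by
    intro a b hab
    exact tauK_inj' p (congrArg (Subtype.val : k0 p → KK p) hab)
  exact Infinite.of_injective _ h

/-- T9 (Final.lean): the context of a model -/
theorem ctx_of_mdl (p : ℕ) [Fact p.Prime] (M : Type) [Field M] (σ : P1 p →+* M) (hM : Mdl p σ) :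
    ∃ (j : k0 p →+* M) (st : hM.OC →+* KK p), j (sig0 p Polynomial.X) = σ Polynomial.X ∧
      Ctx (k0 p).subtype j hM.OC st := by
  obtain ⟨j, hj, hj2, hj3, -⟩ := hM.exists_j
  have hjO : ∀ a : k0 p, j a ∈ hM.OC := fun a => hM.alg_mem_OC (hM.alg1_hom j hj a)
  refine ⟨j, hM.st, hj _, infinite_k0 p, ?_, ?_, ?_⟩
  · intro a
    refine ⟨hjO a, ?_⟩
    have h := hom_k0_KK (hM.st.comp (j.codRestrict hM.OC.toSubring hjO)) (fun f => ?_) a
    · exact h
    · have h2 : j.codRestrict hM.OC.toSubring hjO (sig0 p f) = ⟨σ f, hM.OC_of_VO (hM.VO_σ f)⟩ :=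
        Subtype.ext (hj f)
      rw [RingHom.comp_apply, h2]
      exact hM.st_σ f _
  · intro n y S g hS hg
    exact ec p y S hS g hg
  · intro P h0 h1 r hr
    exact large h0 h1 hr

end LD90
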