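import Mathlib

/-!
# Systems of polynomial equations: definitions

A polynomial over `F_p[t]` in the variables `x_0, x_1, …` is given as a list of monomials;
the pair `(k, [i_1, …, i_m])` stands for `t ^ k * x_{i_1} * ⋯ * x_{i_m}` (coefficients in `F_p` are
obtained by repetition).
-/

namespace LD90

/-- polynomials -/
abbrev PL := List (ℕ × List ℕ)

/-- the value of a polynomial at `x` in a ring with an element `t` -/
def ev {R : Type*} [CommRing R] (t : R) (x : ℕ → R) (f : PL) : R :=
  (f.map fun m => t ^ m.1 * (m.2.map x).prod).sum

/-- the total degree (the maximal number of factors `x_i` of a monomial) -/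
def deg (f : PL) : ℕ := (f.map fun m => m.2.length).foldr max 0

/-- the system `f = 0` (`f` in the list `a.1`), `a.2 ≠ 0` has a solution in the ring -/
def Sol {R : Type*} [CommRing R] (t : R) (a : List PL × PL) : Prop :=
  ∃ x : ℕ → R, (∀ f ∈ a.1, ev t x f = 0) ∧ ev t x a.2 ≠ 0

end LD90
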