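import Pool.Agent.LD90.CtxM
import Pool.Agent.LD90.Wrap
import Pool.Agent.LD90.Defs

/-!
# Assembly
-/

set_option maxSynthPendingDepth 10

namespace LD90

open FT80 BF80

section map

variable {R S : Type*} [CommRing R] [CommRing S]

theorem ev_map (φ : R →+* S) (t : R) (x : ℕ → R) (f : PL) :
    ev (φ t) (fun a => φ (x a)) f = φ (ev t x f) := by
  rw [ev, ev, map_list_sum, List.map_map]
  congr 1
  refine List.map_congr_left fun m _ => ?_
  simp only [Function.comp_apply, map_mul, map_pow, map_list_prod, List.map_map]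
  rfl

theorem Sol.map (φ : R →+* S) (hφ : Function.Injective φ) {t : R} {a : List PL × PL}
    (h : Sol t a) : Sol (φ t) a := by
  obtain ⟨x, h1, h2⟩ := h
  refine ⟨fun a => φ (x a), fun f hf => ?_, ?_⟩
  · rw [ev_map, h1 f hf, map_zero]
  · rw [ev_map]
    exact fun h => h2 ((map_eq_zero_iff φ hφ).1 h)

end map

/-- the class of systems -/
def Low (a : List PL × PL) : Prop := (a.1.map fun f => deg f - 1).sum ≤ 2

instance : DecidablePred Low := fun a => inferInstanceAs (Decidable (_ ≤ 2))

theorem primrec_deg : Primrec deg := by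
  have h1 : Primrec (fun f : PL => f.map fun m => m.2.length) :=
    Primrec.list_map Primrec.id (Primrec.list_length.comp (Primrec.snd.comp Primrec.snd)).to₂
  have h2 : Primrec₂ (fun (_ : PL) (x : ℕ × ℕ) => max x.1 x.2) :=
    (Primrec.nat_max.comp (Primrec.fst.comp Primrec.snd) (Primrec.snd.comp Primrec.snd)).to₂
  exact Primrec.list_foldr h1 (Primrec.const 0) h2

theorem primrec_low : PrimrecPred Low := by
  have h1 : Primrec (fun a : List PL × PL => a.1.map fun f => deg f - 1) :=
    Primrec.list_map Primrec.fst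
      (Primrec.nat_sub.comp (primrec_deg.comp Primrec.snd) (Primrec.const 1)).to₂
  have h2 : Primrec₂ (fun (_ : List PL × PL) (x : ℕ × ℕ) => x.1 + x.2) :=
    (Primrec.nat_add.comp (Primrec.fst.comp Primrec.snd) (Primrec.snd.comp Primrec.snd)).to₂
  have h3 := Primrec.list_foldr h1 (Primrec.const 0) h2
  have h4 : PrimrecPred (fun a : List PL × PL =>
      (a.1.map fun f => deg f - 1).foldr (fun x y => x + y) 0 ≤ 2) :=
    Primrec.nat_le.comp h3 (Primrec.const 2)
  exact h4

theorem low_degree_of
    (hsol : ∀ {k K M : Type} [Field k] [Field K] [Field M] {i : k →+* K} {j : k →+* M}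
      {O : ValuationSubring M} {st : O →+* K}, Ctx i j O st → ∀ (t : k) (a : List PL × PL),
      (a.1.map fun f => deg f - 1).sum ≤ 2 → Sol (j t) a → Sol t a)
    (p : ℕ) [Fact p.Prime] :
    ∃ D : List PL × PL → Bool, Computable D ∧
      ∀ a : List PL × PL, (a.1.map fun f => deg f - 1).sum ≤ 2 →
        (D a = true ↔ Sol (HahnSeries.single 1 1 : LaurentSeries (ZMod p)) a) := by
  refine decide_sol p Low primrec_low ?_
  have key : ∀ (M : Type) [Field M] (σ : P1 p →+* M), Mdl p σ → ∀ a, Low a →
      (Sol (σ Polynomial.X) a ↔ Sol (sig0 p Polynomial.X) a) := by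
    intro M _ σ hM a ha
    obtain ⟨j, st, hj, hC⟩ := ctx_of_mdl p M σ hM
    rw [← hj]
    exact ⟨fun h => hsol hC _ a ha h, fun h => h.map j j.injective⟩
  intro M _ σ hM a ha
  exact (key M σ hM a ha).trans (key (KK p) (tauK p) mdl_KK a ha).symm

end LD90
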