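import Pool.Agent.LD90.Ctx

/-!
# The point of the place, normal forms at a rational point
-/

namespace LD90

open MvPolynomial

section place

variable {k K M : Type*} [Field k] [Field K] [Field M] {i : k →+* K} {j : k →+* M}
  {O : ValuationSubring M} {st : O →+* K}

/-- a nonzero point of `M ^ n` specialises to a nonzero point of `K ^ n` -/
theorem exists_place_point (hC : Ctx i j O st) {n : ℕ} {x : Fin n → M} (hx : x ≠ 0) :
    ∃ (l : Fin n) (ξ : Fin n → K), ξ l = 1 ∧ ∀ (f : MvPolynomial (Fin n) k) (d : ℕ),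
      f.IsHomogeneous d → eval₂ j x f = 0 → eval₂ i ξ f = 0 := by
  obtain ⟨a0, ha0⟩ := Function.ne_iff.1 hx
  obtain ⟨l, -, hl⟩ := Finset.exists_max_image Finset.univ (fun a => O.valuation (x a))
    ⟨a0, Finset.mem_univ a0⟩
  have hv : O.valuation (x l) ≠ 0 := by
    intro h
    have h1 := hl a0 (Finset.mem_univ a0)
    rw [h, le_zero_iff, map_eq_zero] at h1
    exact ha0 h1
  have hxl : x l ≠ 0 := fun h => hv (by rw [h, map_zero])
  have hy : ∀ a, (x l)⁻¹ * x a ∈ O := by
    intro a
    rw [← O.valuation_le_one_iff, map_mul, map_inv₀, inv_mul_le_one₀ (zero_lt_iff.2 hv)]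
    exact hl a (Finset.mem_univ a)
  have hj : ∀ a, j a ∈ O := fun a => (hC.comp a).choose
  let j' : k →+* O := j.codRestrict O.toSubring hj
  let y : Fin n → O := fun a => ⟨(x l)⁻¹ * x a, hy a⟩
  refine ⟨l, fun a => st (y a), ?_, fun f d hf h0 => ?_⟩
  · have h1 : y l = 1 := Subtype.ext (inv_mul_cancel₀ hxl)
    show st (y l) = 1
    rw [h1, map_one]
  · have h1 : st.comp j' = i := RingHom.ext fun a => (hC.comp a).choose_spec
    have h2 : eval₂ j' y f = 0 := by
      apply Subtype.ext
      have h3 := MvPolynomial.hom_eval₂ f j' O.subtype y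
      have h4 : O.subtype.comp j' = j := RingHom.ext fun a => rfl
      rw [h4] at h3
      have h5 : eval₂ j (⇑O.subtype ∘ y) f = 0 := by
        have h6 := eval₂_scale hf j (x l)⁻¹ x
        rw [h0, mul_zero] at h6
        exact h6
      exact h3.trans h5
    have h3 := MvPolynomial.hom_eval₂ f j' st y
    rw [h1, h2, map_zero] at h3
    exact h3.symm

theorem j_inj (j : k →+* M) {a : k} (h : j a = 0) : a = 0 := (map_eq_zero j).1 h

end place

section nf

variable {m : ℕ} {k : Type*} [Field k]

/-- the rational point with new coordinates `1, 0` -/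
def ptk (l : Fin (m + 1)) (c : Fin (m + 1) → k) (s : k) (v : Fin m → k) : Fin (m + 1) → k :=
  pt (RingHom.id k) l c s v

theorem ptk_update (l : Fin (m + 1)) (ξ : Fin (m + 1) → k) (h : ξ l = 1) :
    ptk l (Function.update ξ l 0) 1 (fun _ => 0) = ξ := by
  funext a
  by_cases ha : a = l
  · subst ha
    rw [ptk, pt, pt0_self, Function.update_self, map_zero, zero_mul, add_zero, h]
  · rw [ptk, pt, Function.update_of_ne ha, RingHom.id_apply, mul_one, pt0]
    obtain ⟨b, rfl⟩ := (Equiv.swap 0 l).surjective a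
    rw [Equiv.swap_apply_self]
    revert ha
    refine Fin.cases ?_ (fun b ha => ?_) b
    · intro ha
      exact absurd (Equiv.swap_apply_left 0 l) ha
    · rw [Fin.cons_succ, zero_add]

/-- `f` along a line through the rational point -/
noncomputable def lineA (l : Fin (m + 1)) (c : Fin (m + 1) → k) (v : Fin m → k)
    (f : MvPolynomial (Fin (m + 1)) k) : Polynomial k :=
  eval₂ (Polynomial.C.comp (RingHom.id k)) (fun a => Polynomial.C (ptk l c 1 (fun _ => 0) a) +
    Polynomial.X * Polynomial.C (ptk l c 0 v a)) f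

theorem lineA_point (l : Fin (m + 1)) (c : Fin (m + 1) → k) (v : Fin m → k) :
    (fun a => Polynomial.C (ptk l c 1 (fun _ => 0) a) +
      Polynomial.X * Polynomial.C (ptk l c 0 v a)) =
    pt (Polynomial.C.comp (RingHom.id k)) l c (1 : Polynomial k)
      (fun b => Polynomial.X * Polynomial.C (v b)) := by
  funext a
  rw [ptk, ptk, pt, pt, pt, pt0, pt0, pt0]
  obtain ⟨b, rfl⟩ := (Equiv.swap 0 l).surjective a
  rw [Equiv.swap_apply_self]
  refine Fin.cases ?_ (fun b => ?_) b
  · simp
  · simp [add_comm]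

theorem lineA_coeff {l : Fin (m + 1)} {c : Fin (m + 1) → k} {hc : c l = 0}
    {f : MvPolynomial (Fin (m + 1)) k} {d : ℕ} (hf : f.IsHomogeneous d) (v : Fin m → k) (a : ℕ)
    (ha : a ≤ d) : (lineA l c v f).coeff a = eval v ((Ph l c hc f).coeff (d - a)) := by
  have h1 : lineA l c v f = ∑ b ∈ Finset.range (d + 1),
      Polynomial.C (eval v ((Ph l c hc f).coeff b)) * Polynomial.X ^ (d - b) := by
    rw [lineA, lineA_point, ← eval₂_Ph (hc := hc), Polynomial.eval₂_eq_sum_range' _ (n := d + 1)]
    · refine Finset.sum_congr rfl fun b hb => ?_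
      rw [one_pow, mul_one, coe_eval₂Hom]
      have hb' : b + (d - b) = d := by
        have := Finset.mem_range.1 hb
        omega
      rw [eval₂_scale (hom_Ph hf b (d - b) hb'), mul_comm]
      congr 1
      have h2 := eval₂_comp_eval (Polynomial.C.comp (RingHom.id k)) v ((Ph l c hc f).coeff b)
      exact h2
    · apply Nat.lt_succ_of_le
      rw [Polynomial.natDegree_le_iff_coeff_eq_zero]
      exact fun N hN => Ph_coeff_gt hf N hN
  rw [h1, Polynomial.finsetSum_coeff]
  rw [Finset.sum_eq_single (d - a)]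
  · rw [Polynomial.coeff_C_mul, Polynomial.coeff_X_pow, if_pos (by omega), mul_one]
  · intro b hb hne
    rw [Polynomial.coeff_C_mul, Polynomial.coeff_X_pow, if_neg, mul_zero]
    have := Finset.mem_range.1 hb
    omega
  · intro h
    exact absurd (Finset.mem_range.2 (by omega)) h

theorem lineA_coeff_zero (l : Fin (m + 1)) (c : Fin (m + 1) → k) (v : Fin m → k)
    (f : MvPolynomial (Fin (m + 1)) k) :
    (lineA l c v f).coeff 0 = eval (ptk l c 1 (fun _ => 0)) f := by
  rw [Polynomial.coeff_zero_eq_eval_zero, lineA, ← Polynomial.coe_evalRingHom,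
    MvPolynomial.hom_eval₂]
  have h1 : (Polynomial.evalRingHom (0 : k)).comp (Polynomial.C.comp (RingHom.id k)) =
      RingHom.id k := by
    apply RingHom.ext
    intro a
    simp
  have h2 : (fun a => Polynomial.evalRingHom (0 : k) (Polynomial.C (ptk l c 1 (fun _ => 0) a) +
      Polynomial.X * Polynomial.C (ptk l c 0 v a))) = ptk l c 1 (fun _ => 0) := by
    funext a
    simp
  rw [h1, h2, MvPolynomial.eval₂_id]

theorem lineA_coeff_one (l : Fin (m + 1)) (c : Fin (m + 1) → k) (v : Fin m → k)
    (f : MvPolynomial (Fin (m + 1)) k)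
    (h : ∀ a, eval (ptk l c 1 (fun _ => 0)) (pderiv a f) = 0) : (lineA l c v f).coeff 1 = 0 := by
  have h0 : (lineA l c v f).coeff 1 = (Polynomial.derivative (lineA l c v f)).coeff 0 := by
    rw [Polynomial.coeff_derivative]
    simp
  rw [h0, lineA, chain_rule, Polynomial.finsetSum_coeff]
  refine Finset.sum_eq_zero fun a _ => ?_
  rw [Polynomial.mul_coeff_zero]
  have h1 := lineA_coeff_zero l c v (pderiv a f)
  rw [lineA, h a] at h1
  rw [h1, zero_mul]

variable [Infinite k]

theorem eq_zero_of_eval {n : ℕ} {f : MvPolynomial (Fin n) k} (h : ∀ v, eval v f = 0) : f = 0 :=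
  MvPolynomial.funext fun v => by rw [h v, map_zero]

theorem exists_eval_ne {n : ℕ} {f : MvPolynomial (Fin n) k} (h : f ≠ 0) : ∃ v, eval v f ≠ 0 := by
  by_contra hcon
  push Not at hcon
  exact h (eq_zero_of_eval hcon)

theorem nf_zero {l : Fin (m + 1)} {c : Fin (m + 1) → k} {hc : c l = 0}
    {f : MvPolynomial (Fin (m + 1)) k} {d : ℕ} (hf : f.IsHomogeneous d)
    (h : eval (ptk l c 1 (fun _ => 0)) f = 0) : (Ph l c hc f).coeff d = 0 := by
  apply eq_zero_of_eval
  intro v
  have h1 := lineA_coeff (hc := hc) hf v 0 (Nat.zero_le _)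
  rw [lineA_coeff_zero, h, Nat.sub_zero] at h1
  exact h1.symm

theorem nf_one {l : Fin (m + 1)} {c : Fin (m + 1) → k} {hc : c l = 0}
    {f : MvPolynomial (Fin (m + 1)) k} {d : ℕ} (hf : f.IsHomogeneous (d + 1))
    (h : ∀ a, eval (ptk l c 1 (fun _ => 0)) (pderiv a f) = 0) : (Ph l c hc f).coeff d = 0 := by
  apply eq_zero_of_eval
  intro v
  have h1 := lineA_coeff (hc := hc) hf v 1 (by omega)
  rw [lineA_coeff_one l c v f h, Nat.add_sub_cancel] at h1
  exact h1.symm

/-- normal form: degree at most one in the first coordinate -/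
theorem nf_le_one {l : Fin (m + 1)} {c : Fin (m + 1) → k} {hc : c l = 0}
    {f : MvPolynomial (Fin (m + 1)) k} (h : ∀ a, 2 ≤ a → (Ph l c hc f).coeff a = 0) :
    Ph l c hc f = Polynomial.C ((Ph l c hc f).coeff 0) +
      Polynomial.X * Polynomial.C ((Ph l c hc f).coeff 1) := by
  ext1 a
  rcases a with _ | _ | a
  · simp
  · simp [Polynomial.coeff_C]
  · rw [h (a + 1 + 1) (by omega), Polynomial.coeff_add, Polynomial.coeff_C,
      if_neg (by omega), zero_add, Polynomial.coeff_X_mul, Polynomial.coeff_C, if_neg (by omega)]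

end nf

end LD90
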