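import Mathlib

/-!
# Bezout relations for irreducible polynomials over factorial rings, homogeneous factors
-/

open Polynomial

namespace LD90

section bez

variable {R : Type*} [CommRing R] [IsDomain R] [UniqueFactorizationMonoid R]

theorem clear_dvd {F G : R[X]}
    (h : F.map (algebraMap R (FractionRing R)) ∣ G.map (algebraMap R (FractionRing R))) :
    ∃ c : R, c ≠ 0 ∧ F ∣ C c * G := by
  obtain ⟨H, hH⟩ := h
  obtain ⟨b, hb, hbH⟩ := IsLocalization.integerNormalization_spec (nonZeroDivisors R) H
  refine ⟨b, nonZeroDivisors.ne_zero hb, IsLocalization.integerNormalization (nonZeroDivisors R) H, ?_⟩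
  have hinj : Function.Injective (Polynomial.map (algebraMap R (FractionRing R))) :=
    Polynomial.map_injective _ (IsFractionRing.injective R (FractionRing R))
  apply hinj
  rw [Polynomial.map_mul, Polynomial.map_mul, hbH, hH, Polynomial.map_C]
  rw [mul_smul_comm, ← algebraMap_smul (FractionRing R) b, ← smul_eq_C_mul]

theorem bez {F G : R[X]} (hF : Irreducible F) (hd : F.natDegree ≠ 0) (hFG : ¬ F ∣ G) :
    ∃ A B : R[X], ∃ r : R, r ≠ 0 ∧ A * F + B * G = C r := by
  classical
  let K := FractionRing R
  have hinj : Function.Injective (Polynomial.map (algebraMap R K)) :=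
    Polynomial.map_injective _ (IsFractionRing.injective R K)
  have hprim : F.IsPrimitive := hF.isPrimitive hd
  have hF' : Irreducible (F.map (algebraMap R K)) :=
    (hprim.irreducible_iff_irreducible_map_fraction_map (K := K)).1 hF
  have hnd : ¬ F.map (algebraMap R K) ∣ G.map (algebraMap R K) := by
    intro h
    obtain ⟨c, hc, hd'⟩ := clear_dvd h
    rcases (hF.prime.dvd_mul).1 hd' with h1 | h1
    · have h2 : C c ≠ 0 := by rwa [Ne, C_eq_zero]
      have h3 := natDegree_le_of_dvd h1 h2
      rw [natDegree_C] at h3
      omega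
    · exact hFG h1
  obtain ⟨u, v, huv⟩ := (hF'.coprime_iff_not_dvd).2 hnd
  obtain ⟨b, hb, hbu⟩ := IsLocalization.integerNormalization_spec (nonZeroDivisors R) u
  obtain ⟨c, hc, hcv⟩ := IsLocalization.integerNormalization_spec (nonZeroDivisors R) v
  refine ⟨C c * IsLocalization.integerNormalization (nonZeroDivisors R) u,
    C b * IsLocalization.integerNormalization (nonZeroDivisors R) v, b * c,
    mul_ne_zero (nonZeroDivisors.ne_zero hb) (nonZeroDivisors.ne_zero hc), ?_⟩
  apply hinj
  rw [Polynomial.map_add, Polynomial.map_mul, Polynomial.map_mul, Polynomial.map_mul,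
    Polynomial.map_mul, hbu, hcv, Polynomial.map_C, Polynomial.map_C, Polynomial.map_C,
    ← algebraMap_smul K b, ← algebraMap_smul K c, smul_eq_C_mul, smul_eq_C_mul, map_mul, C_mul]
  linear_combination (C (algebraMap R K b) * C (algebraMap R K c)) * huv

end bez

end LD90
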