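import Pool.Agent.LD90.Tools

/-!
# The abstract context

`k` is an infinite field, `i : k → K`, `j : k → M` are field extensions, `O` is a valuation ring of
`M` containing `k`, with a place `st : O → K` over `k`; `K` is large and `k` is existentially closed
in `K`.
-/

namespace LD90

open MvPolynomial

/-- the context -/
structure Ctx {k K M : Type*} [Field k] [Field K] [Field M] (i : k →+* K) (j : k →+* M)
    (O : ValuationSubring M) (st : O →+* K) : Prop where
  inf : Infinite k
  comp : ∀ a, ∃ h : j a ∈ O, st ⟨j a, h⟩ = i a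
  ec : ∀ (n : ℕ) (y : Fin n → K) (S : Finset (MvPolynomial (Fin n) k))
    (g : MvPolynomial (Fin n) k), (∀ f ∈ S, eval₂ i y f = 0) → eval₂ i y g ≠ 0 →
    ∃ z : Fin n → k, (∀ f ∈ S, eval z f = 0) ∧ eval z g ≠ 0
  large : ∀ P : Polynomial (Polynomial K), (P.coeff 0).eval 0 = 0 → (P.coeff 1).eval 0 ≠ 0 →
    ∀ r : Polynomial K, r ≠ 0 → ∃ e y : K,
      (P.map (Polynomial.evalRingHom e)).eval y = 0 ∧ r.eval e ≠ 0

end LD90
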