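import Mathlib

/-!
# Factors of homogeneous polynomials are homogeneous
-/

namespace LD90

open MvPolynomial

section hom

variable {ι k : Type*} [Field k]

/-- `X_i ↦ X_i T` -/
noncomputable def hT : MvPolynomial ι k →ₐ[k] Polynomial (MvPolynomial ι k) :=
  MvPolynomial.aeval fun i => Polynomial.C (X i) * Polynomial.X

theorem hT_monomial (s : ι →₀ ℕ) (r : k) :
    hT (monomial s r) = Polynomial.C (monomial s r) * Polynomial.X ^ s.degree := by
  rw [hT, MvPolynomial.aeval_monomial]
  simp only [mul_pow, Finsupp.prod_mul]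
  have h1 : (s.prod fun _ e => (Polynomial.X : Polynomial (MvPolynomial ι k)) ^ e) =
      Polynomial.X ^ s.degree := by
    rw [Finsupp.prod, Finset.prod_pow_eq_pow_sum]
    rfl
  have h2 : (algebraMap k (Polynomial (MvPolynomial ι k))) r =
      Polynomial.C (C r : MvPolynomial ι k) := rfl
  rw [h1, h2, ← mul_assoc]
  congr 1
  rw [MvPolynomial.monomial_eq, map_mul, Finsupp.prod, Finsupp.prod, map_prod]
  simp only [map_pow]

theorem hT_coeff (a : MvPolynomial ι k) (m : ℕ) :
    (hT a).coeff m = homogeneousComponent m a := by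
  classical
  induction a using MvPolynomial.induction_on' with
  | monomial s r =>
    rw [hT_monomial, Polynomial.coeff_C_mul, Polynomial.coeff_X_pow]
    have h1 : (monomial s r : MvPolynomial ι k) ∈ homogeneousSubmodule ι k s.degree :=
      isHomogeneous_monomial r rfl
    rw [homogeneousComponent_of_mem h1]
    split_ifs <;> simp
  | add a b ha hb => rw [map_add, Polynomial.coeff_add, ha, hb, map_add]

theorem isHomogeneous_iff_hT (a : MvPolynomial ι k) (m : ℕ) :
    a.IsHomogeneous m ↔ hT a = Polynomial.C a * Polynomial.X ^ m := by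
  classical
  constructor
  · intro h
    ext1 l
    rw [hT_coeff, homogeneousComponent_of_mem h, Polynomial.coeff_C_mul, Polynomial.coeff_X_pow]
    split_ifs <;> simp
  · intro h
    have h1 := hT_coeff a m
    rw [h, Polynomial.coeff_C_mul, Polynomial.coeff_X_pow, if_pos rfl, mul_one] at h1
    rw [h1]
    exact homogeneousComponent_isHomogeneous m a

theorem hT_ne_zero {a : MvPolynomial ι k} (ha : a ≠ 0) : hT a ≠ 0 := by
  intro h
  apply ha
  have h1 : ∀ m, homogeneousComponent m a = 0 := by
    intro m
    rw [← hT_coeff, h, Polynomial.coeff_zero]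
  rw [← MvPolynomial.sum_homogeneousComponent a]
  exact Finset.sum_eq_zero fun m _ => h1 m

theorem hom_factor {a b : MvPolynomial ι k} {d : ℕ} (h : (a * b).IsHomogeneous d)
    (h0 : a * b ≠ 0) : ∃ e, a.IsHomogeneous e := by
  classical
  have ha : a ≠ 0 := left_ne_zero_of_mul h0
  have hb : b ≠ 0 := right_ne_zero_of_mul h0
  have hTa := hT_ne_zero ha
  have hTb := hT_ne_zero hb
  have h1 := (isHomogeneous_iff_hT _ _).1 h
  rw [map_mul] at h1
  have hdeg := congrArg Polynomial.natDegree h1
  have htr := congrArg Polynomial.natTrailingDegree h1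
  have hC : Polynomial.C (a * b) ≠ 0 := by rwa [Ne, Polynomial.C_eq_zero]
  have hX : (Polynomial.X : Polynomial (MvPolynomial ι k)) ^ d ≠ 0 :=
    pow_ne_zero _ Polynomial.X_ne_zero
  rw [Polynomial.natDegree_mul hTa hTb, Polynomial.natDegree_mul hC hX, Polynomial.natDegree_C,
    Polynomial.natDegree_X_pow, zero_add] at hdeg
  rw [Polynomial.natTrailingDegree_mul hTa hTb, Polynomial.natTrailingDegree_mul hC hX,
    Polynomial.natTrailingDegree_C, zero_add, Polynomial.natTrailingDegree_X_pow] at htr
  have h2 := Polynomial.natTrailingDegree_le_natDegree (hT a)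
  have h3 := Polynomial.natTrailingDegree_le_natDegree (hT b)
  have h4 : (hT a).natTrailingDegree = (hT a).natDegree := by omega
  refine ⟨(hT a).natDegree, ?_⟩
  have h5 : ∀ m, m ≠ (hT a).natDegree → homogeneousComponent m a = 0 := by
    intro m hm
    rw [← hT_coeff]
    rcases lt_or_gt_of_ne hm with h6 | h6
    · exact Polynomial.coeff_eq_zero_of_lt_natTrailingDegree (h4 ▸ h6)
    · exact Polynomial.coeff_eq_zero_of_natDegree_lt h6
  have h7 : a = homogeneousComponent (hT a).natDegree a := by
    conv_lhs => rw [← MvPolynomial.sum_homogeneousComponent a]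
    rw [Finset.sum_eq_single (hT a).natDegree]
    · intro m _ hm
      exact h5 m hm
    · intro hm
      apply MvPolynomial.homogeneousComponent_eq_zero
      simpa using hm
  have h8 := homogeneousComponent_isHomogeneous (hT a).natDegree a
  rw [← h7] at h8
  exact h8

end hom

end LD90
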