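import Pool.Agent.LD90.Bez
import Pool.Agent.LD90.Hom

/-!
# Evaluation, scaling, chain rule, coordinates
-/

namespace LD90

open MvPolynomial

section scale

variable {σ k A : Type*} [CommRing k] [CommRing A]

/-- homogeneous polynomials and scaling -/
theorem eval₂_scale {f : MvPolynomial σ k} {d : ℕ} (hf : f.IsHomogeneous d) (φ : k →+* A) (c : A)
    (x : σ → A) : eval₂ φ (fun a => c * x a) f = c ^ d * eval₂ φ x f := by
  rw [eval₂_eq, eval₂_eq, Finset.mul_sum]
  refine Finset.sum_congr rfl fun s hs => ?_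
  have h1 : ∑ i ∈ s.support, s i = d := by
    have := hf (mem_support_iff.1 hs)
    rw [← this, Finsupp.weight_apply, Finsupp.sum]
    simp
  have h2 : ∏ i ∈ s.support, (c * x i) ^ s i = c ^ d * ∏ i ∈ s.support, x i ^ s i := by
    rw [← h1, ← Finset.prod_pow_eq_pow_sum, ← Finset.prod_mul_distrib]
    exact Finset.prod_congr rfl fun i _ => mul_pow _ _ _
  rw [h2]
  ring

theorem eval₂_zero_of_hom {f : MvPolynomial σ k} {d : ℕ} (hf : f.IsHomogeneous d) (hd : d ≠ 0)
    (φ : k →+* A) : eval₂ φ (fun _ => 0) f = 0 := by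
  have h := eval₂_scale hf φ 0 (fun _ => (0 : A))
  rw [zero_pow hd, zero_mul] at h
  simpa using h

theorem eval₂_comp_eval (φ : k →+* A) (z : σ → k) (f : MvPolynomial σ k) :
    eval₂ φ (fun a => φ (z a)) f = φ (eval z f) := by
  rw [← MvPolynomial.eval₂_id, MvPolynomial.hom_eval₂ f (RingHom.id k) φ z]
  rfl

end scale

section chain

variable {n : ℕ} {k K : Type*} [Field k] [Field K]

/-- chain rule -/
theorem chain_rule (φ : k →+* K) (y : Fin n → Polynomial K) (f : MvPolynomial (Fin n) k) :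
    Polynomial.derivative (eval₂ (Polynomial.C.comp φ) y f) =
      ∑ a, eval₂ (Polynomial.C.comp φ) y (pderiv a f) * Polynomial.derivative (y a) := by
  induction f using MvPolynomial.induction_on with
  | C r => simp
  | add f g hf hg =>
    rw [eval₂_add, Polynomial.derivative_add, hf, hg, ← Finset.sum_add_distrib]
    refine Finset.sum_congr rfl fun a _ => ?_
    rw [map_add, eval₂_add, add_mul]
  | mul_X f b hf =>
    rw [eval₂_mul, eval₂_X, Polynomial.derivative_mul, hf]
    have h1 : ∀ a, eval₂ (Polynomial.C.comp φ) y (pderiv a (f * X b)) *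
        Polynomial.derivative (y a) =
        eval₂ (Polynomial.C.comp φ) y (pderiv a f) * Polynomial.derivative (y a) * y b +
        eval₂ (Polynomial.C.comp φ) y f * (if a = b then Polynomial.derivative (y a) else 0) := by
      intro a
      rw [Derivation.leibniz, pderiv_X, smul_eq_mul, smul_eq_mul, eval₂_add, eval₂_mul, eval₂_mul,
        eval₂_X]
      by_cases hab : a = b
      · subst hab
        rw [Pi.single_eq_same, if_pos rfl, eval₂_one]
        ring
      · rw [Pi.single_eq_of_ne (Ne.symm hab), if_neg hab, eval₂_zero]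
        ring
    rw [Finset.sum_congr rfl fun a _ => h1 a, Finset.sum_add_distrib, ← Finset.sum_mul,
      ← Finset.mul_sum, Finset.sum_ite_eq' Finset.univ b, if_pos (Finset.mem_univ b)]

end chain

section coord

variable {m : ℕ} {k A : Type*} [Field k] [CommRing A]

/-- the variable `X l` is singled out -/
noncomputable def El (k : Type*) [Field k] (l : Fin (m + 1)) :
    MvPolynomial (Fin (m + 1)) k ≃ₐ[k] Polynomial (MvPolynomial (Fin m) k) :=
  (renameEquiv k (Equiv.swap 0 l)).trans (finSuccEquiv k m)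

theorem El_apply (l : Fin (m + 1)) (f : MvPolynomial (Fin (m + 1)) k) :
    El k l f = finSuccEquiv k m (rename (Equiv.swap 0 l) f) := rfl

/-- the point with coordinate `l` equal to `s`, the others given by `v` -/
def pt0 (l : Fin (m + 1)) (s : A) (v : Fin m → A) : Fin (m + 1) → A :=
  fun a => (Fin.cons s v : Fin (m + 1) → A) (Equiv.swap 0 l a)

theorem pt0_self (l : Fin (m + 1)) (s : A) (v : Fin m → A) : pt0 l s v l = s := by
  rw [pt0, Equiv.swap_apply_right, Fin.cons_zero]

theorem pt0_swap (l : Fin (m + 1)) (s : A) (v : Fin m → A) (b : Fin m) :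
    pt0 l s v (Equiv.swap 0 l b.succ) = v b := by
  rw [pt0, Equiv.swap_apply_self, Fin.cons_succ]

theorem pt0_eta (l : Fin (m + 1)) (x : Fin (m + 1) → A) :
    pt0 l (x l) (fun b => x (Equiv.swap 0 l b.succ)) = x := by
  funext a
  rw [pt0]
  obtain ⟨a', rfl⟩ := (Equiv.swap 0 l).surjective a
  rw [Equiv.swap_apply_self]
  refine Fin.cases ?_ (fun b => ?_) a'
  · rw [Fin.cons_zero, Equiv.swap_apply_left]
  · rw [Fin.cons_succ]

theorem eval₂_El (l : Fin (m + 1)) (φ : k →+* A) (s : A) (v : Fin m → A)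
    (f : MvPolynomial (Fin (m + 1)) k) :
    Polynomial.eval₂ (eval₂Hom φ v) s (El k l f) = eval₂ φ (pt0 l s v) f := by
  rw [El_apply]
  have h : ((Polynomial.eval₂RingHom (eval₂Hom φ v) s).comp
      ((finSuccEquiv k m).toRingEquiv.toRingHom)) = eval₂Hom φ (Fin.cons s v : Fin (m + 1) → A) := by
    apply MvPolynomial.ringHom_ext
    · intro r
      show Polynomial.eval₂ (eval₂Hom φ v) s (finSuccEquiv k m (C r)) = _
      rw [finSuccEquiv_apply, eval₂Hom_C, RingHom.comp_apply, Polynomial.eval₂_C, eval₂Hom_C,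
        eval₂Hom_C]
    · intro a
      show Polynomial.eval₂ (eval₂Hom φ v) s (finSuccEquiv k m (X a)) = _
      refine Fin.cases ?_ (fun b => ?_) a
      · rw [finSuccEquiv_X_zero, Polynomial.eval₂_X, eval₂Hom_X', Fin.cons_zero]
      · rw [finSuccEquiv_X_succ, Polynomial.eval₂_C, eval₂Hom_X', eval₂Hom_X', Fin.cons_succ]
  have h2 := RingHom.congr_fun h (rename (Equiv.swap 0 l) f)
  have h3 : Polynomial.eval₂ (eval₂Hom φ v) s (finSuccEquiv k m (rename (Equiv.swap 0 l) f)) =
      eval₂ φ (Fin.cons s v : Fin (m + 1) → A) (rename (Equiv.swap 0 l) f) := h2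
  rw [h3, eval₂_rename]
  rfl

/-- the shear `X_a ↦ X_a + c_a X_l` -/
noncomputable def shf (l : Fin (m + 1)) (c : Fin (m + 1) → k) :
    MvPolynomial (Fin (m + 1)) k →ₐ[k] MvPolynomial (Fin (m + 1)) k :=
  aeval fun a => X a + C (c a) * X l

theorem shf_comp (l : Fin (m + 1)) (c : Fin (m + 1) → k) (hc : c l = 0) :
    (shf l c).comp (shf l (-c)) = AlgHom.id k _ := by
  apply MvPolynomial.algHom_ext
  intro a
  simp only [shf, AlgHom.comp_apply, aeval_X, map_add, map_mul, aeval_C, AlgHom.id_apply,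
    Pi.neg_apply, hc, map_neg, algebraMap_eq, C_0, zero_mul, add_zero]
  ring

/-- the shear as an isomorphism -/
noncomputable def sh (l : Fin (m + 1)) (c : Fin (m + 1) → k) (hc : c l = 0) :
    MvPolynomial (Fin (m + 1)) k ≃ₐ[k] MvPolynomial (Fin (m + 1)) k :=
  AlgEquiv.ofAlgHom (shf l c) (shf l (-c)) (shf_comp l c hc)
    (by
      have h := shf_comp l (-c) (by simp [hc])
      rwa [neg_neg] at h)

theorem sh_apply (l : Fin (m + 1)) (c : Fin (m + 1) → k) (hc : c l = 0)
    (f : MvPolynomial (Fin (m + 1)) k) : sh l c hc f = aeval (fun a => X a + C (c a) * X l) f := rfl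

/-- new coordinates -/
noncomputable def Ph (l : Fin (m + 1)) (c : Fin (m + 1) → k) (hc : c l = 0) :
    MvPolynomial (Fin (m + 1)) k ≃ₐ[k] Polynomial (MvPolynomial (Fin m) k) :=
  (sh l c hc).trans (El k l)

/-- the point with new coordinates `s, v` -/
def pt (φ : k →+* A) (l : Fin (m + 1)) (c : Fin (m + 1) → k) (s : A) (v : Fin m → A) :
    Fin (m + 1) → A := fun a => pt0 l s v a + φ (c a) * s

theorem eval₂_Ph (φ : k →+* A) (l : Fin (m + 1)) (c : Fin (m + 1) → k) (hc : c l = 0) (s : A)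
    (v : Fin m → A) (f : MvPolynomial (Fin (m + 1)) k) :
    Polynomial.eval₂ (eval₂Hom φ v) s (Ph l c hc f) = eval₂ φ (pt φ l c s v) f := by
  have h1 : Ph l c hc f = El k l (sh l c hc f) := rfl
  rw [h1, eval₂_El, sh_apply]
  have h2 : (eval₂Hom φ (pt0 l s v)).comp
      ((aeval (fun a => X a + C (c a) * X l) : MvPolynomial (Fin (m + 1)) k →ₐ[k]
        MvPolynomial (Fin (m + 1)) k) : MvPolynomial (Fin (m + 1)) k →+*
        MvPolynomial (Fin (m + 1)) k) = eval₂Hom φ (pt φ l c s v) := by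
    apply MvPolynomial.ringHom_ext
    · intro r
      simp
    · intro a
      simp [pt, pt0_self]
  exact RingHom.congr_fun h2 f

theorem exists_pt (φ : k →+* A) (l : Fin (m + 1)) (c : Fin (m + 1) → k) (hc : c l = 0)
    (x : Fin (m + 1) → A) : ∃ s v, x = pt φ l c s v := by
  refine ⟨x l, fun b => x (Equiv.swap 0 l b.succ) - φ (c (Equiv.swap 0 l b.succ)) * x l, ?_⟩
  have h := pt0_eta l (fun a => x a - φ (c a) * x l)
  simp only [hc, map_zero, zero_mul, sub_zero] at h
  funext a
  rw [pt, h]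
  ring

theorem hom_sh {l : Fin (m + 1)} {c : Fin (m + 1) → k} {hc : c l = 0}
    {f : MvPolynomial (Fin (m + 1)) k} {d : ℕ} (hf : f.IsHomogeneous d) :
    (sh l c hc f).IsHomogeneous d := by
  rw [sh_apply]
  have h := IsHomogeneous.aeval hf (g := fun a => X a + C (c a) * X l) (n := 1) (fun a =>
    (isHomogeneous_X k a).add (isHomogeneous_C_mul_X (c a) l))
  rwa [one_mul] at h

theorem hom_Ph {l : Fin (m + 1)} {c : Fin (m + 1) → k} {hc : c l = 0}
    {f : MvPolynomial (Fin (m + 1)) k} {d : ℕ} (hf : f.IsHomogeneous d) (a b : ℕ)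
    (h : a + b = d) : ((Ph l c hc f).coeff a).IsHomogeneous b := by
  have h1 : (rename (Equiv.swap 0 l) (sh l c hc f)).IsHomogeneous d :=
    (hom_sh hf).rename_isHomogeneous
  exact h1.finSuccEquiv_coeff_isHomogeneous a b h

theorem Ph_coeff_gt {l : Fin (m + 1)} {c : Fin (m + 1) → k} {hc : c l = 0}
    {f : MvPolynomial (Fin (m + 1)) k} {d : ℕ} (hf : f.IsHomogeneous d) (a : ℕ) (h : d < a) :
    (Ph l c hc f).coeff a = 0 := by
  have h1 : (rename (Equiv.swap 0 l) (sh l c hc f)).IsHomogeneous d :=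
    (hom_sh hf).rename_isHomogeneous
  apply Polynomial.coeff_eq_zero_of_natDegree_lt
  have h2 : (Ph l c hc f).natDegree = degreeOf 0 (rename (Equiv.swap 0 l) (sh l c hc f)) :=
    natDegree_finSuccEquiv _
  rw [h2]
  exact lt_of_le_of_lt ((degreeOf_le_totalDegree _ _).trans h1.totalDegree_le) h

end coord

end LD90
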